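import Mathlib

/-! Triangulations of a convex `n`-gon with vertices `0, ..., n - 1` in cyclic order. -/

namespace Pool.Agent.Lib.MP_04fdae_co

/-- The pair `p = (i, j)` with `i < j` is a diagonal: its ends are not neighbours. -/
def IsDiag {n : ℕ} (p : Fin n × Fin n) : Prop :=
  p.1.val + 2 ≤ p.2.val ∧ ¬ (p.1.val = 0 ∧ p.2.val = n - 1)

/-- The chords `p` and `q` cross in the interior of the polygon. -/
def Cross {n : ℕ} (p q : Fin n × Fin n) : Prop :=
  (p.1 < q.1 ∧ q.1 < p.2 ∧ p.2 < q.2) ∨ (q.1 < p.1 ∧ p.1 < q.2 ∧ q.2 < p.2)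

/-- A triangulation is a maximal set of pairwise non-crossing diagonals. -/
def IsTriangulation {n : ℕ} (T : Finset (Fin n × Fin n)) : Prop :=
  (∀ p ∈ T, IsDiag p) ∧ (∀ p ∈ T, ∀ q ∈ T, ¬ Cross p q) ∧
    ∀ p, IsDiag p → (∀ q ∈ T, ¬ Cross p q) → p ∈ T

/-- The vertex `v` is one of the `m` cyclically consecutive vertices `w, w + 1, ..., w + m - 1`. -/
def InArc {n : ℕ} (w : Fin n) (m : ℕ) (v : Fin n) : Prop :=
  ∃ i < m, v.val = (w.val + i) % n

end Pool.Agent.Lib.MP_04fdae_co
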