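import Mathlib
import Pool.Agent.Lib.MP_04fdae_co.Defs

-- part Pool.Agent.Lib.MP_04fdae_co.Game
section

/-!
Counting with incomplete assignments of coins.  A configuration is a finite set of coins (those
showing heads) inside a finite universe `U`.  `val U B p` is `2 ^ |U|` times the conditional
probability of `B` given the assignment `p`.
-/

namespace Pool.Agent.Lib.MP_04fdae_co

open Finset

abbrev Coin := ℕ × ℕ
abbrev PA := Coin → Option Bool
abbrev Cp := Bool × Bool

def Ext (p : PA) (ω : Finset Coin) : Prop := ∀ c b, p c = some b → (c ∈ ω ↔ b = true)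

open Classical in
noncomputable def val (U : Finset Coin) (B : Finset (Finset Coin)) (p : PA) : ℕ :=
  (B.filter (Ext p)).card * 2 ^ (U.filter (fun c => p c ≠ none)).card

theorem ext_update {p : PA} {c : Coin} (hp : p c = none) (b : Bool) (ω : Finset Coin) :
    Ext (Function.update p c (some b)) ω ↔ Ext p ω ∧ (c ∈ ω ↔ b = true) := by
  constructor
  · intro h
    refine ⟨fun c' b' hc => h c' b' ?_, h c b (by simp)⟩
    have : c' ≠ c := by rintro rfl; rw [hp] at hc; cases hc
    rw [Function.update_of_ne this]; exact hc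
  · rintro ⟨h1, h2⟩ c' b' hc
    by_cases hcc : c' = c
    · subst hcc
      simp only [Function.update_self, Option.some.injEq] at hc
      subst hc; exact h2
    · rw [Function.update_of_ne hcc] at hc
      exact h1 c' b' hc

theorem dom_update {U : Finset Coin} {p : PA} {c : Coin} (hc : c ∈ U) (hp : p c = none)
    (b : Bool) :
    (U.filter (fun c' => Function.update p c (some b) c' ≠ none)).card =
      (U.filter (fun c' => p c' ≠ none)).card + 1 := by
  have : U.filter (fun c' => Function.update p c (some b) c' ≠ none) =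
      insert c (U.filter (fun c' => p c' ≠ none)) := by
    ext c'
    by_cases hcc : c' = c
    · subst hcc; simp [hc]
    · simp [hcc]
  rw [this, card_insert_of_notMem]
  simp [hp]

theorem val_split {U : Finset Coin} (B : Finset (Finset Coin)) {p : PA} {c : Coin} (hc : c ∈ U)
    (hp : p c = none) :
    2 * val U B p = val U B (Function.update p c (some true)) +
      val U B (Function.update p c (some false)) := by
  classical
  unfold val
  rw [dom_update hc hp, dom_update hc hp]
  have h1 : B.filter (Ext (Function.update p c (some true))) =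
      (B.filter (Ext p)).filter (fun ω => c ∈ ω) := by
    ext ω; simp [ext_update hp, and_assoc]
  have h2 : B.filter (Ext (Function.update p c (some false))) =
      (B.filter (Ext p)).filter (fun ω => ¬ c ∈ ω) := by
    ext ω; simp [ext_update hp, and_assoc]
  have h3 := card_filter_add_card_filter_not (s := B.filter (Ext p)) (fun ω => c ∈ ω)
  rw [h1, h2, ← h3]
  ring

theorem unassigned_update {U : Finset Coin} {p : PA} {c : Coin} (hc : c ∈ U) (hp : p c = none)
    (b : Bool) :
    (U.filter (fun c' => Function.update p c (some b) c' = none)).card + 1 =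
      (U.filter (fun c' => p c' = none)).card := by
  have : U.filter (fun c' => p c' = none) =
      insert c (U.filter (fun c' => Function.update p c (some b) c' = none)) := by
    ext c'
    by_cases hcc : c' = c
    · subst hcc; simp [hc, hp]
    · simp [hcc]
  rw [this, card_insert_of_notMem]
  simp

theorem val_le {U : Finset Coin} {B : Finset (Finset Coin)} (hB : B ⊆ U.powerset) (p : PA) :
    val U B p ≤ 2 ^ U.card := by
  classical
  generalize hN : (U.filter (fun c' => p c' = none)).card = N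
  induction N generalizing p with
  | zero =>
    have hall : ∀ c ∈ U, p c ≠ none := by
      intro c hc h
      have : c ∈ U.filter (fun c' => p c' = none) := by simp [hc, h]
      rw [card_eq_zero.mp hN] at this
      simp at this
    unfold val
    rw [filter_true_of_mem hall]
    have : (B.filter (Ext p)).card ≤ 1 := by
      rw [card_le_one]
      intro ω hω ω' hω'
      rw [mem_filter] at hω hω'
      have h1 := mem_powerset.mp (hB hω.1)
      have h2 := mem_powerset.mp (hB hω'.1)
      ext c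
      by_cases hc : c ∈ U
      · obtain ⟨b, hb⟩ := Option.ne_none_iff_exists'.mp (hall c hc)
        rw [hω.2 c b hb, hω'.2 c b hb]
      · exact ⟨fun h => absurd (h1 h) hc, fun h => absurd (h2 h) hc⟩
    nlinarith [Nat.one_le_two_pow (n := U.card)]
  | succ N ih =>
    obtain ⟨c, hc⟩ : (U.filter (fun c' => p c' = none)).Nonempty := by
      rw [← card_pos]; omega
    rw [mem_filter] at hc
    have h1 := ih (Function.update p c (some true))
      (by have := unassigned_update hc.1 hc.2 true; omega)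
    have h2 := ih (Function.update p c (some false))
      (by have := unassigned_update hc.1 hc.2 false; omega)
    have := val_split B hc.1 hc.2
    omega

theorem val_powerset {U : Finset Coin} (p : PA) (hp : ∀ c, p c ≠ none → c ∈ U) :
    val U U.powerset p = 2 ^ U.card := by
  classical
  generalize hN : (U.filter (fun c' => p c' = none)).card = N
  induction N generalizing p with
  | zero =>
    have hall : ∀ c ∈ U, p c ≠ none := by
      intro c hc h
      have : c ∈ U.filter (fun c' => p c' = none) := by simp [hc, h]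
      rw [card_eq_zero.mp hN] at this
      simp at this
    unfold val
    rw [filter_true_of_mem hall]
    have : U.powerset.filter (Ext p) = {U.filter (fun c => p c = some true)} := by
      ext ω
      simp only [mem_filter, mem_powerset, mem_singleton]
      constructor
      · rintro ⟨h1, h2⟩
        ext c
        simp only [mem_filter]
        constructor
        · intro hc
          obtain ⟨b, hb⟩ := Option.ne_none_iff_exists'.mp (hall c (h1 hc))
          have := (h2 c b hb).mp hc
          subst this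
          exact ⟨h1 hc, hb⟩
        · rintro ⟨_, hb⟩
          exact (h2 c true hb).mpr rfl
      · rintro rfl
        refine ⟨filter_subset _ _, fun c b hb => ?_⟩
        have hc : c ∈ U := hp c (by simp [hb])
        simp [hc, hb]
    rw [this]; simp
  | succ N ih =>
    obtain ⟨c, hc⟩ : (U.filter (fun c' => p c' = none)).Nonempty := by
      rw [← card_pos]; omega
    rw [mem_filter] at hc
    have hh : ∀ b : Bool, ∀ c', Function.update p c (some b) c' ≠ none → c' ∈ U := by
      intro b c' h
      by_cases hcc : c' = c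
      · subst hcc; exact hc.1
      · rw [Function.update_of_ne hcc] at h; exact hp c' h
    have h1 := ih (Function.update p c (some true)) (hh true)
      (by have := unassigned_update hc.1 hc.2 true; omega)
    have h2 := ih (Function.update p c (some false)) (hh false)
      (by have := unassigned_update hc.1 hc.2 false; omega)
    have := val_split U.powerset hc.1 hc.2
    omega

/-- The four conditional probabilities add up to at most one. -/
def Good (U : Finset Coin) (B : Finset (Finset Coin)) (P : Cp → PA) : Prop :=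
  ∑ a, val U B (P a) ≤ 2 ^ U.card

/-- Reveal one fair bit `x` and write it (with a sign) on at most one coin of each copy. -/
def app (P : Cp → PA) (τ : Cp → Option (Coin × Bool)) (x : Bool) : Cp → PA := fun a =>
  match τ a with
  | none => P a
  | some (c, s) => Function.update (P a) c (some (xor x s))

def PLe (P Q : Cp → PA) : Prop := ∀ a c b, P a c = some b → Q a c = some b

theorem PLe.refl (P : Cp → PA) : PLe P P := fun _ _ _ h => h

theorem PLe.trans {P Q R : Cp → PA} (h1 : PLe P Q) (h2 : PLe Q R) : PLe P R :=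
  fun a c b h => h2 a c b (h1 a c b h)

theorem PLe.ext {P Q : Cp → PA} (h : PLe P Q) {a : Cp} {ω : Finset Coin} (hω : Ext (Q a) ω) :
    Ext (P a) ω := fun c b hc => hω c b (h a c b hc)

theorem app_le {P : Cp → PA} {τ : Cp → Option (Coin × Bool)}
    (hτ : ∀ a c s, τ a = some (c, s) → P a c = none) (x : Bool) : PLe P (app P τ x) := by
  intro a c b h
  unfold app
  rcases hta : τ a with _ | ⟨c', s⟩
  · exact h
  · have : c ≠ c' := by rintro rfl; rw [hτ a c s hta] at h; cases h
    simp only [Function.update_of_ne this]; exact h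

theorem app_self {P : Cp → PA} {τ : Cp → Option (Coin × Bool)} {a : Cp} {c : Coin} {s : Bool}
    (h : τ a = some (c, s)) (x : Bool) : app P τ x a c = some (xor x s) := by
  unfold app; rw [h]; simp

theorem app_none {P : Cp → PA} {τ : Cp → Option (Coin × Bool)} {a : Cp} {c : Coin}
    (h : P a c = none) (h2 : ∀ s, τ a ≠ some (c, s)) (x : Bool) : app P τ x a c = none := by
  unfold app
  rcases hta : τ a with _ | ⟨c', s⟩
  · exact h
  · have : c ≠ c' := by rintro rfl; exact h2 s hta
    simp only [Function.update_of_ne this]; exact h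

theorem good_step {U : Finset Coin} {B : Finset (Finset Coin)} {P : Cp → PA}
    (τ : Cp → Option (Coin × Bool))
    (hτ : ∀ a c s, τ a = some (c, s) → c ∈ U ∧ P a c = none)
    (h : ∀ x, Good U B (app P τ x)) : Good U B P := by
  have key : ∀ a, 2 * val U B (P a) = val U B (app P τ true a) + val U B (app P τ false a) := by
    intro a
    unfold app
    rcases hta : τ a with _ | ⟨c, s⟩
    · simp only; ring
    · obtain ⟨h1, h2⟩ := hτ a c s hta
      have := val_split B h1 h2
      cases s
      · simpa using this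
      · simp only [Bool.xor_true, Bool.not_true, Bool.not_false]; omega
  have h1 := h true
  have h2 := h false
  unfold Good at *
  have : 2 * ∑ a, val U B (P a) =
      ∑ a, val U B (app P τ true a) + ∑ a, val U B (app P τ false a) := by
    rw [mul_sum, ← sum_add_distrib]
    exact sum_congr rfl fun a _ => key a
  omega

/-- Reveal freely all coins of the phase `k`. -/
theorem good_fill {U : Finset Coin} {B : Finset (Finset Coin)} (k : ℕ) (P : Cp → PA)
    (h : ∀ Q, PLe P Q → (∀ a c, c.1 ≠ k → P a c = none → Q a c = none) →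
      (∀ a, ∀ c ∈ U, c.1 = k → Q a c ≠ none) → Good U B Q) : Good U B P := by
  classical
  generalize hN : ((univ ×ˢ U).filter
    (fun z : Cp × Coin => z.2.1 = k ∧ P z.1 z.2 = none)).card = N
  induction N generalizing P with
  | zero =>
    refine h P (PLe.refl P) (fun _ _ _ h => h) fun a c hc hk hn => ?_
    have : (a, c) ∈ (univ ×ˢ U).filter
      (fun z : Cp × Coin => z.2.1 = k ∧ P z.1 z.2 = none) := by simp [hc, hk, hn]
    rw [card_eq_zero.mp hN] at this
    simp at this
  | succ N ih =>
    obtain ⟨⟨a, c⟩, hc⟩ : ((univ ×ˢ U).filter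
      (fun z : Cp × Coin => z.2.1 = k ∧ P z.1 z.2 = none)).Nonempty := by
      rw [← card_pos]; omega
    simp only [mem_filter, mem_product, mem_univ, true_and] at hc
    obtain ⟨hcU, hck, hcn⟩ := hc
    let τ : Cp → Option (Coin × Bool) := fun a' => if a' = a then some (c, false) else none
    have hτ : ∀ a' c' s, τ a' = some (c', s) → c' ∈ U ∧ P a' c' = none := by
      intro a' c' s h
      simp only [τ] at h
      split_ifs at h with h1
      simp only [Option.some.injEq, Prod.mk.injEq] at h
      obtain ⟨rfl, _⟩ := h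
      subst h1
      exact ⟨hcU, hcn⟩
    refine good_step τ hτ fun x => ih _ ?_ ?_
    · intro Q hQ h2 h3
      refine h Q ((app_le (fun a c s h => (hτ a c s h).2) x).trans hQ) ?_ h3
      intro a' c' hk hn
      refine h2 a' c' hk (app_none hn ?_ x)
      intro s hs
      simp only [τ] at hs
      split_ifs at hs with h1
      simp only [Option.some.injEq, Prod.mk.injEq] at hs
      exact hk (hs.1 ▸ hck)
    · have : (univ ×ˢ U).filter (fun z : Cp × Coin => z.2.1 = k ∧ P z.1 z.2 = none) =
          insert (a, c) ((univ ×ˢ U).filter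
            (fun z : Cp × Coin => z.2.1 = k ∧ app P τ x z.1 z.2 = none)) := by
        ext ⟨a', c'⟩
        simp only [mem_filter, mem_product, mem_univ, true_and, mem_insert, Prod.mk.injEq]
        by_cases hh : a' = a ∧ c' = c
        · obtain ⟨rfl, rfl⟩ := hh
          simp [hcU, hck, hcn]
        · simp only [hh, false_or]
          refine and_congr_right fun _ => and_congr_right fun _ => ⟨fun hn => ?_, fun hn => ?_⟩
          · refine app_none hn ?_ x
            intro s hs
            simp only [τ] at hs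
            split_ifs at hs with h1
            simp only [Option.some.injEq, Prod.mk.injEq] at hs
            exact hh ⟨h1, hs.1.symm⟩
          · by_contra hne
            obtain ⟨b, hb⟩ := Option.ne_none_iff_exists'.mp hne
            rw [app_le (fun a c s h => (hτ a c s h).2) x a' c' b hb] at hn
            cases hn
      rw [this, card_insert_of_notMem] at hN
      · omega
      · simp only [mem_filter, not_and]
        intro _ _
        rw [app_self (c := c) (s := false) (by simp [τ])]
        simp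

end Pool.Agent.Lib.MP_04fdae_co
end

-- part Pool.Agent.Lib.MP_04fdae_co.Stack
section

/-! The stack process: vertex `k + 1` pops `o (k + 1)` vertices and is pushed. -/

namespace Pool.Agent.Lib.MP_04fdae_co

open Finset

def cnt (S : Finset ℕ) (u : ℕ) : ℕ := (S.filter (fun i => u ≤ i)).card

def rk (S : Finset ℕ) (j : ℕ) : ℕ := cnt S (j + 1)

def stk (o : ℕ → ℕ) : ℕ → Finset ℕ
  | 0 => {0}
  | k + 1 => insert (k + 1) ((stk o k).filter (fun j => o (k + 1) ≤ rk (stk o k) j))

/-- There is a chord from `j` to the vertex `k + 1`. -/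
def Ch (o : ℕ → ℕ) (k j : ℕ) : Prop := j ∈ stk o k ∧ j < k ∧ rk (stk o k) j ≤ o (k + 1)

theorem cnt_of_mem {S : Finset ℕ} {u : ℕ} (h : u ∈ S) : cnt S u = cnt S (u + 1) + 1 := by
  unfold cnt
  have : S.filter (fun i => u ≤ i) = insert u (S.filter (fun i => u + 1 ≤ i)) := by
    ext i
    simp only [mem_filter, mem_insert]
    constructor
    · rintro ⟨h1, h2⟩
      by_cases hi : i = u
      · exact Or.inl hi
      · exact Or.inr ⟨h1, by omega⟩
    · rintro (rfl | ⟨h1, h2⟩)
      · exact ⟨h, le_rfl⟩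
      · exact ⟨h1, by omega⟩
  rw [this, card_insert_of_notMem]
  simp

theorem cnt_of_not_mem {S : Finset ℕ} {u : ℕ} (h : u ∉ S) : cnt S u = cnt S (u + 1) := by
  unfold cnt
  congr 1
  ext i
  simp only [mem_filter]
  refine and_congr_right fun hi => ⟨fun h1 => ?_, fun h1 => by omega⟩
  have : i ≠ u := by rintro rfl; exact h hi
  omega

theorem cnt_anti (S : Finset ℕ) {u v : ℕ} (h : u ≤ v) : cnt S v ≤ cnt S u := by
  unfold cnt
  exact card_le_card (fun i hi => by
    simp only [mem_filter] at hi ⊢; exact ⟨hi.1, by omega⟩)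

theorem cnt_le_card (S : Finset ℕ) (u : ℕ) : cnt S u ≤ S.card := card_filter_le _ _

theorem rk_lt_cnt {S : Finset ℕ} {j u : ℕ} (hj : j ∈ S) (h : u ≤ j) : rk S j < cnt S u := by
  have h1 := cnt_of_mem hj
  have h2 := cnt_anti S h
  unfold rk; omega

theorem rk_lt_rk {S : Finset ℕ} {j j' : ℕ} (hj : j' ∈ S) (h : j < j') : rk S j' < rk S j :=
  rk_lt_cnt hj h

theorem rk_anti (S : Finset ℕ) {j j' : ℕ} (h : j ≤ j') : rk S j' ≤ rk S j :=
  cnt_anti S (by omega)

theorem rk_inj {S : Finset ℕ} {j j' : ℕ} (hj : j ∈ S) (hj' : j' ∈ S) (h : rk S j = rk S j') :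
    j = j' := by
  rcases lt_trichotomy j j' with h1 | h1 | h1
  · have := rk_lt_rk hj' h1; omega
  · exact h1
  · have := rk_lt_rk hj h1; omega

theorem lt_of_rk_lt {S : Finset ℕ} {j j' : ℕ} (h : rk S j < rk S j') : j' < j := by
  by_contra hh
  have := rk_anti S (not_lt.mp hh)
  omega

theorem rk_insert {S : Finset ℕ} {v j : ℕ} (hv : v ∉ S) (h : j < v) :
    rk (insert v S) j = rk S j + 1 := by
  unfold rk cnt
  rw [filter_insert, if_pos (by omega), card_insert_of_notMem]
  simp [hv]

theorem mem_stk_le (o : ℕ → ℕ) : ∀ k j, j ∈ stk o k → j ≤ k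
  | 0, j, h => by simpa [stk] using h
  | k + 1, j, h => by
    simp only [stk, mem_insert, mem_filter] at h
    rcases h with rfl | h
    · exact le_rfl
    · have := mem_stk_le o k j h.1; omega

theorem top_mem_stk (o : ℕ → ℕ) : ∀ k, k ∈ stk o k
  | 0 => by simp [stk]
  | k + 1 => by simp [stk]

theorem cnt_stk_succ (o : ℕ → ℕ) (k : ℕ) : cnt (stk o k) (k + 1) = 0 := by
  unfold cnt
  rw [card_eq_zero, filter_eq_empty_iff]
  intro j hj
  have := mem_stk_le o k j hj; omega

theorem cnt_stk_top (o : ℕ → ℕ) (k : ℕ) : cnt (stk o k) k = 1 := by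
  rw [cnt_of_mem (top_mem_stk o k), cnt_stk_succ]

theorem rk_top (o : ℕ → ℕ) (k : ℕ) : rk (stk o k) k = 0 := cnt_stk_succ o k

theorem one_le_rk {o : ℕ → ℕ} {k j : ℕ} (h : j < k) : 1 ≤ rk (stk o k) j := by
  have := rk_lt_rk (top_mem_stk o k) h
  omega

theorem card_stk_le (o : ℕ → ℕ) (k : ℕ) : (stk o k).card ≤ k + 1 := by
  have : stk o k ⊆ range (k + 1) := fun j hj => by
    have := mem_stk_le o k j hj; simp; omega
  simpa using card_le_card this

theorem rk_stk_le {o : ℕ → ℕ} {k j : ℕ} (hj : j ∈ stk o k) : rk (stk o k) j ≤ k := by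
  have h1 := rk_lt_cnt hj (Nat.zero_le j)
  have h2 := cnt_le_card (stk o k) 0
  have h3 := card_stk_le o k
  omega

theorem stk_congr {o o' : ℕ → ℕ} : ∀ k, (∀ i, 1 ≤ i → i ≤ k → o i = o' i) → stk o k = stk o' k
  | 0, _ => rfl
  | k + 1, h => by
    simp only [stk]
    rw [stk_congr k (fun i h1 h2 => h i h1 (by omega)), h (k + 1) (by omega) le_rfl]

theorem ch_congr {o o' : ℕ → ℕ} {k j : ℕ} (h : ∀ i, 1 ≤ i → i ≤ k + 1 → o i = o' i) :
    Ch o k j ↔ Ch o' k j := by
  unfold Ch
  rw [stk_congr k (fun i h1 h2 => h i h1 (by omega)), h (k + 1) (by omega) le_rfl]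

theorem mem_stk_succ {o : ℕ → ℕ} {k j : ℕ} :
    j ∈ stk o (k + 1) ↔ j = k + 1 ∨ (j ∈ stk o k ∧ o (k + 1) ≤ rk (stk o k) j) := by
  simp [stk]

theorem zero_of_mem_stk (o : ℕ → ℕ) : ∀ k j, j ∈ stk o k → j < k → o (j + 1) = 0
  | 0, j, _, h => by omega
  | k + 1, j, h, h2 => by
    rcases mem_stk_succ.mp h with rfl | ⟨h3, h4⟩
    · omega
    · by_cases hj : j = k
      · subst hj
        rw [rk_top] at h4; omega
      · exact zero_of_mem_stk o k j h3 (by omega)

theorem stk_succ_of_zero {o : ℕ → ℕ} {k : ℕ} (h : o (k + 1) = 0) :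
    stk o (k + 1) = insert (k + 1) (stk o k) := by
  ext j; simp [mem_stk_succ, h]

theorem succ_not_mem_stk (o : ℕ → ℕ) (k : ℕ) : k + 1 ∉ stk o k := fun h => by
  have := mem_stk_le o k _ h; omega

/-- The number of heads at the start of the row `k`. -/
noncomputable def oval (ω : Finset Coin) (k : ℕ) : ℕ := sInf {t | (k, t) ∉ ω}

theorem oval_nonempty (ω : Finset Coin) (k : ℕ) : {t | (k, t) ∉ ω}.Nonempty := by
  by_contra h
  have h1 : ∀ t, (k, t) ∈ ω := by
    intro t; by_contra ht; exact h ⟨t, ht⟩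
  have : (Set.univ : Set ℕ).Finite := by
    refine Set.Finite.subset (ω.image Prod.snd).finite_toSet fun t _ => ?_
    simp only [coe_image, Set.mem_image]
    exact ⟨(k, t), h1 t, rfl⟩
  exact Set.infinite_univ this

theorem oval_le {ω : Finset Coin} {k t : ℕ} (h : (k, t) ∉ ω) : oval ω k ≤ t := Nat.sInf_le h

theorem le_oval {ω : Finset Coin} {k θ : ℕ} (h : ∀ t < θ, (k, t) ∈ ω) : θ ≤ oval ω k := by
  by_contra hh
  exact Nat.sInf_mem (oval_nonempty ω k) (h _ (not_le.mp hh))

theorem oval_congr {ω ω' : Finset Coin} {k : ℕ} (h : ∀ t, (k, t) ∈ ω ↔ (k, t) ∈ ω') :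
    oval ω k = oval ω' k := by
  unfold oval
  congr 1
  ext t; simp [h]

/-- The canopy: the first coins of the four copies. -/
def chi (r : ℕ) (a : Cp) : Bool :=
  if r = 0 then a.1 else if r = 1 then a.2 else xor a.1 a.2

def cb (x : ℕ → Bool) (a : Cp) (i : ℕ) : Bool := xor (x i) (chi (i % 3) a)

theorem role_unique (x : ℕ → Bool) (i : ℕ) {a a' : Cp} (h1 : cb x a (i + 1) = cb x a' (i + 1))
    (h2 : cb x a i = cb x a' i) : a = a' := by
  unfold cb at h1 h2
  have h : i % 3 = 0 ∧ (i + 1) % 3 = 1 ∨ i % 3 = 1 ∧ (i + 1) % 3 = 2 ∨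
    i % 3 = 2 ∧ (i + 1) % 3 = 0 := by omega
  obtain ⟨a1, a2⟩ := a
  obtain ⟨b1, b2⟩ := a'
  rcases h with ⟨e1, e2⟩ | ⟨e1, e2⟩ | ⟨e1, e2⟩ <;> rw [e1] at h2 <;> rw [e2] at h1 <;>
    revert h1 h2 <;> generalize x i = y <;> generalize x (i + 1) = z <;>
    revert a1 a2 b1 b2 y z <;> decide

theorem role_exists (x : ℕ → Bool) (i : ℕ) (β β' : Bool) :
    ∃ a, cb x a (i + 1) = β ∧ cb x a i = β' := by
  unfold cb
  have h : i % 3 = 0 ∧ (i + 1) % 3 = 1 ∨ i % 3 = 1 ∧ (i + 1) % 3 = 2 ∨
    i % 3 = 2 ∧ (i + 1) % 3 = 0 := by omega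
  rcases h with ⟨e1, e2⟩ | ⟨e1, e2⟩ | ⟨e1, e2⟩ <;> rw [e1, e2] <;>
    generalize x i = y <;> generalize x (i + 1) = z <;>
    revert β β' y z <;> decide

theorem class_eq (x : ℕ → Bool) {i i' : ℕ} {a a' : Cp} (h : a ≠ a') (h1 : cb x a i = cb x a' i)
    (h2 : cb x a i' = cb x a' i') : i % 3 = i' % 3 := by
  unfold cb at h1 h2
  have e1 : i % 3 = 0 ∨ i % 3 = 1 ∨ i % 3 = 2 := by omega
  have e2 : i' % 3 = 0 ∨ i' % 3 = 1 ∨ i' % 3 = 2 := by omega
  obtain ⟨a1, a2⟩ := a
  obtain ⟨b1, b2⟩ := a'
  rcases e1 with e1 | e1 | e1 <;> rcases e2 with e2 | e2 | e2 <;> rw [e1] at h1 ⊢ <;>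
    rw [e2] at h2 ⊢ <;> revert h h1 h2 <;> generalize x i = y <;> generalize x i' = z <;>
    revert a1 a2 b1 b2 y z <;> decide

end Pool.Agent.Lib.MP_04fdae_co
end

-- part Pool.Agent.Lib.MP_04fdae_co.Lin
section

/-! A triangulation rooted at a side is encoded by the numbers of chords going down. -/

namespace Pool.Agent.Lib.MP_04fdae_co

open Finset

theorem rk_shift {S S' : Finset ℕ} {a : ℕ} (h : ∀ i, i ∈ S ↔ a + i ∈ S') (j : ℕ) :
    rk S j = rk S' (a + j) := by
  unfold rk cnt
  refine card_bij (fun i _ => a + i) ?_ ?_ ?_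
  · intro i hi
    rw [mem_filter] at hi ⊢
    exact ⟨(h i).mp hi.1, by omega⟩
  · intro i _ i' _ hh; omega
  · intro i hi
    rw [mem_filter] at hi
    refine ⟨i - a, ?_, by omega⟩
    rw [mem_filter, h, show a + (i - a) = i by omega]
    exact ⟨hi.1, by omega⟩

theorem mem_stk_shift (o : ℕ → ℕ) (a : ℕ) :
    ∀ t j, j ∈ stk (fun i => o (a + i)) t ↔ a + j ∈ stk o (a + t)
  | 0, j => by
    simp only [stk, mem_singleton, add_zero]
    constructor
    · rintro rfl; exact top_mem_stk o a
    · intro h; have := mem_stk_le o a _ h; omega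
  | t + 1, j => by
    rw [mem_stk_succ, ← add_assoc, mem_stk_succ, mem_stk_shift o a t,
      rk_shift (mem_stk_shift o a t), add_assoc]
    constructor
    · rintro (h | h)
      · left; omega
      · exact Or.inr h
    · rintro (h | h)
      · left; omega
      · exact Or.inr h

theorem ch_shift (o : ℕ → ℕ) (a t j : ℕ) :
    Ch (fun i => o (a + i)) t j ↔ Ch o (a + t) (a + j) := by
  unfold Ch
  rw [mem_stk_shift, rk_shift (mem_stk_shift o a t), add_assoc, Nat.add_lt_add_iff_left]

theorem card_filter_le_rk (S : Finset ℕ) {t : ℕ} (ht : t ≤ S.card) :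
    (S.filter (fun j => t ≤ rk S j)).card + t = S.card := by
  have hinj : Set.InjOn (rk S) S := fun i hi j hj h => rk_inj hi hj h
  have himg : S.image (rk S) = range S.card := by
    refine eq_of_subset_of_card_le ?_ ?_
    · intro r hr
      obtain ⟨j, hj, rfl⟩ := mem_image.mp hr
      have h1 := rk_lt_cnt hj (Nat.zero_le j)
      have h2 := cnt_le_card S 0
      simp; omega
    · rw [card_image_of_injOn hinj, card_range]
  have h1 : (S.filter (fun j => ¬ t ≤ rk S j)).card = t := by
    rw [← card_image_of_injOn (f := rk S) (hinj.mono (coe_subset.mpr (filter_subset _ _)))]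
    have : (S.filter (fun j => ¬ t ≤ rk S j)).image (rk S) = range t := by
      ext r
      simp only [mem_image, mem_filter, mem_range]
      constructor
      · rintro ⟨j, hj, rfl⟩; omega
      · intro hr
        have : r ∈ S.image (rk S) := by rw [himg]; simp; omega
        obtain ⟨j, hj, rfl⟩ := mem_image.mp this
        exact ⟨j, ⟨hj, by omega⟩, rfl⟩
    rw [this, card_range]
  have h2 := card_filter_add_card_filter_not (s := S) (fun j => t ≤ rk S j)
  omega

structure LinTri (n : ℕ) (E : ℕ → ℕ → Prop) : Prop where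
  diag : ∀ i j, E i j → i + 2 ≤ j ∧ j < n
  root : E 0 (n - 1)
  nc : ∀ i j k l, E i j → E k l → ¬ (i < k ∧ k < j ∧ j < l)
  mx : ∀ i j, 0 < i → i + 2 ≤ j → j < n →
    (∀ k l, E k l → ¬ ((i < k ∧ k < j ∧ j < l) ∨ (k < i ∧ i < l ∧ l < j))) → E i j

open Classical in
noncomputable def DD (E : ℕ → ℕ → Prop) (v : ℕ) : Finset ℕ := (range v).filter (fun u => E u v)

noncomputable def od (E : ℕ → ℕ → Prop) (v : ℕ) : ℕ := (DD E v).card

open Classical in
noncomputable def VV (E : ℕ → ℕ → Prop) (v : ℕ) : Finset ℕ :=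
  (range (v + 1)).filter (fun j => ¬ ∃ u w, u < j ∧ j < w ∧ w ≤ v ∧ E u w)

variable {n : ℕ} {E : ℕ → ℕ → Prop}

theorem LinTri.mem_DD (h : LinTri n E) {u v : ℕ} : u ∈ DD E v ↔ E u v := by
  classical
  unfold DD
  rw [mem_filter, mem_range]
  exact ⟨fun hh => hh.2, fun hh => ⟨by have := h.diag u v hh; omega, hh⟩⟩

theorem mem_VV {j v : ℕ} :
    j ∈ VV E v ↔ j ≤ v ∧ ¬ ∃ u w, u < j ∧ j < w ∧ w ≤ v ∧ E u w := by
  simp only [VV, mem_filter, mem_range, Nat.lt_succ_iff]

theorem top_mem_VV (v : ℕ) : v ∈ VV E v :=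
  mem_VV.mpr ⟨le_rfl, fun ⟨_, _, _, h1, h2, _⟩ => by omega⟩

theorem zero_mem_VV (v : ℕ) : 0 ∈ VV E v :=
  mem_VV.mpr ⟨Nat.zero_le _, fun ⟨_, _, h1, _⟩ => by omega⟩

theorem LinTri.D_sub (h : LinTri n E) {u v : ℕ} (hu : E u (v + 1)) : u ∈ VV E v ∧ u < v := by
  have := h.diag _ _ hu
  refine ⟨mem_VV.mpr ⟨by omega, ?_⟩, by omega⟩
  rintro ⟨a, b, h1, h2, h3, h4⟩
  exact h.nc a b u (v + 1) h4 hu ⟨h1, h2, by omega⟩

theorem LinTri.D_up (h : LinTri n E) {u v j : ℕ} (hu : E u (v + 1)) (h1 : u < j) (h2 : j < v)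
    (hj : j ∈ VV E v) : E j (v + 1) := by
  refine h.mx j (v + 1) (by omega) (by omega) (h.diag _ _ hu).2 ?_
  rintro k l hkl (⟨t1, t2, t3⟩ | ⟨t1, t2, t3⟩)
  · exact h.nc u (v + 1) k l hu hkl ⟨by omega, t2, t3⟩
  · exact (mem_VV.mp hj).2 ⟨k, l, t1, t2, by omega, hkl⟩

theorem LinTri.chord_iff (h : LinTri n E) {v j : ℕ} (hj : j ∈ VV E v) (hjv : j < v) :
    E j (v + 1) ↔ rk (VV E v) j ≤ od E (v + 1) := by
  unfold rk cnt od
  constructor
  · intro hE
    have hsub : (VV E v).filter (fun i => j + 1 ≤ i) ⊆ insert v ((DD E (v + 1)).erase j) := by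
      intro i hi
      rw [mem_filter] at hi
      have := (mem_VV.mp hi.1).1
      rw [mem_insert, mem_erase, h.mem_DD]
      by_cases hiv : i = v
      · exact Or.inl hiv
      · exact Or.inr ⟨by omega, h.D_up hE (by omega) (by omega) hi.1⟩
    have h1 := card_le_card hsub
    have h2 := card_insert_le v ((DD E (v + 1)).erase j)
    have h3 := card_erase_add_one (h.mem_DD.mpr hE)
    omega
  · intro hle
    by_contra hE
    have hsub : insert v (DD E (v + 1)) ⊆ (VV E v).filter (fun i => j + 1 ≤ i) := by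
      intro i hi
      rw [mem_insert, h.mem_DD] at hi
      rw [mem_filter]
      rcases hi with rfl | hi
      · exact ⟨top_mem_VV _, by omega⟩
      · refine ⟨(h.D_sub hi).1, ?_⟩
        by_contra hh
        by_cases hij : i = j
        · exact hE (hij ▸ hi)
        · exact hE (h.D_up hi (by omega) hjv hj)
    have h1 := card_le_card hsub
    rw [card_insert_of_notMem] at h1
    · omega
    · intro hv
      have := (h.D_sub (h.mem_DD.mp hv)).2
      omega

theorem LinTri.cover_iff (h : LinTri n E) {v j : ℕ} (hj : j ∈ VV E v) :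
    (¬ ∃ u, u < j ∧ E u (v + 1)) ↔ od E (v + 1) ≤ rk (VV E v) j := by
  have hjv := (mem_VV.mp hj).1
  unfold rk cnt od
  constructor
  · intro hn
    by_cases hv : j = v
    · subst hv
      have : DD E (j + 1) = ∅ := by
        rw [eq_empty_iff_forall_notMem]
        intro u hu
        rw [h.mem_DD] at hu
        exact hn ⟨u, (h.D_sub hu).2, hu⟩
      rw [this]; simp
    · have hsub : insert v ((DD E (v + 1)).erase j) ⊆ (VV E v).filter (fun i => j + 1 ≤ i) := by
        intro i hi
        rw [mem_insert, mem_erase, h.mem_DD] at hi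
        rw [mem_filter]
        rcases hi with rfl | hi
        · exact ⟨top_mem_VV _, by omega⟩
        · refine ⟨(h.D_sub hi.2).1, ?_⟩
          by_contra hh
          exact hn ⟨i, by omega, hi.2⟩
      have h1 := card_le_card hsub
      rw [card_insert_of_notMem] at h1
      · have := pred_card_le_card_erase (s := DD E (v + 1)) (a := j)
        omega
      · intro hv
        have := (h.D_sub (h.mem_DD.mp (mem_erase.mp hv).2)).2
        omega
  · rintro hle ⟨u, hu, hE⟩
    have hD := h.mem_DD.mpr hE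
    by_cases hv : j = v
    · subst hv
      have : (VV E j).filter (fun i => j + 1 ≤ i) = ∅ := by
        rw [filter_eq_empty_iff]
        intro i hi
        have := (mem_VV.mp hi).1
        omega
      rw [this] at hle
      have := card_pos.mpr ⟨u, hD⟩
      simp at hle
      simp [hle] at this
    · have hEj := h.D_up hE hu (by omega) hj
      have hsub : (VV E v).filter (fun i => j + 1 ≤ i) ⊆
          insert v (((DD E (v + 1)).erase j).erase u) := by
        intro i hi
        rw [mem_filter] at hi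
        have := (mem_VV.mp hi.1).1
        rw [mem_insert, mem_erase, mem_erase, h.mem_DD]
        by_cases hiv : i = v
        · exact Or.inl hiv
        · exact Or.inr ⟨by omega, by omega, h.D_up hE (by omega) (by omega) hi.1⟩
      have h1 := card_le_card hsub
      have h2 := card_insert_le v (((DD E (v + 1)).erase j).erase u)
      have h3 := card_erase_add_one (h.mem_DD.mpr hEj)
      have h4 := card_erase_add_one (s := (DD E (v + 1)).erase j) (a := u)
        (mem_erase.mpr ⟨by omega, hD⟩)
      omega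

theorem LinTri.VV_succ (h : LinTri n E) (v : ℕ) :
    VV E (v + 1) = insert (v + 1) ((VV E v).filter (fun j => od E (v + 1) ≤ rk (VV E v) j)) := by
  ext j
  rw [mem_insert, mem_filter]
  constructor
  · intro hj
    by_cases hv : j = v + 1
    · exact Or.inl hv
    · obtain ⟨h1, h2⟩ := mem_VV.mp hj
      have h3 : j ∈ VV E v := mem_VV.mpr ⟨by omega, fun ⟨u, w, t1, t2, t3, t4⟩ =>
        h2 ⟨u, w, t1, t2, by omega, t4⟩⟩
      exact Or.inr ⟨h3, (h.cover_iff h3).mp fun ⟨u, t1, t2⟩ =>
        h2 ⟨u, v + 1, t1, by omega, le_rfl, t2⟩⟩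
  · rintro (rfl | ⟨h1, h2⟩)
    · exact top_mem_VV _
    · obtain ⟨h3, h4⟩ := mem_VV.mp h1
      refine mem_VV.mpr ⟨by omega, ?_⟩
      rintro ⟨u, w, t1, t2, t3, t4⟩
      by_cases hw : w = v + 1
      · subst hw
        exact (h.cover_iff h1).mpr h2 ⟨u, t1, t4⟩
      · exact h4 ⟨u, w, t1, t2, by omega, t4⟩

theorem LinTri.stk_eq (h : LinTri n E) : ∀ v, stk (od E) v = VV E v
  | 0 => by
    ext j
    simp only [stk, mem_singleton]
    exact ⟨by rintro rfl; exact zero_mem_VV _, fun hj => by have := (mem_VV.mp hj).1; omega⟩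
  | v + 1 => by rw [h.VV_succ, stk, h.stk_eq v]

theorem LinTri.ch_iff (h : LinTri n E) (v j : ℕ) : Ch (od E) v j ↔ E j (v + 1) := by
  unfold Ch
  rw [h.stk_eq]
  constructor
  · rintro ⟨h1, h2, h3⟩
    exact (h.chord_iff h1 h2).mpr h3
  · intro hE
    obtain ⟨h1, h2⟩ := h.D_sub hE
    exact ⟨h1, h2, (h.chord_iff h1 h2).mp hE⟩

theorem LinTri.height (h : LinTri n E) : ∀ v, ∑ i ∈ Icc 1 v, od E i + (VV E v).card = v + 1
  | 0 => by rw [← h.stk_eq]; simp [stk]
  | v + 1 => by
    have h1 := h.height v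
    have h2 : od E (v + 1) ≤ (VV E v).card :=
      card_le_card fun u hu => (h.D_sub (h.mem_DD.mp hu)).1
    have h3 := card_filter_le_rk (VV E v) h2
    rw [sum_Icc_succ_top (by omega), h.VV_succ, card_insert_of_notMem]
    · omega
    · intro hh
      have := (mem_VV.mp (mem_filter.mp hh).1).1
      omega

theorem LinTri.ballot (h : LinTri n E) {v : ℕ} (hv : 1 ≤ v) :
    ∑ i ∈ Icc 1 v, od E i + 1 ≤ v := by
  have h1 := h.height v
  have h2 : ({0, v} : Finset ℕ) ⊆ VV E v := by
    intro j hj
    simp only [mem_insert, mem_singleton] at hj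
    rcases hj with rfl | rfl
    · exact zero_mem_VV _
    · exact top_mem_VV _
  have h3 := card_le_card h2
  rw [card_pair (by omega)] at h3
  omega

theorem LinTri.total (h : LinTri n E) : ∑ i ∈ Icc 1 (n - 1), od E i + 2 = n := by
  have h0 := h.diag _ _ h.root
  have h1 := h.height (n - 1)
  have h2 : VV E (n - 1) ⊆ {0, n - 1} := by
    intro j hj
    obtain ⟨t1, t2⟩ := mem_VV.mp hj
    simp only [mem_insert, mem_singleton]
    by_contra hh
    exact t2 ⟨0, n - 1, by omega, by omega, le_rfl, h.root⟩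
  have h3 := card_le_card h2
  rw [card_pair (by omega)] at h3
  have h4 := h.ballot (v := n - 1) (by omega)
  omega

theorem LinTri.eq_of_od {E' : ℕ → ℕ → Prop} (h : LinTri n E) (h' : LinTri n E')
    (ho : ∀ i, 1 ≤ i → i ≤ n - 1 → od E i = od E' i) (i j : ℕ) (hE : E i j) : E' i j := by
  have h1 := h.diag _ _ hE
  obtain ⟨v, rfl⟩ : ∃ v, j = v + 1 := ⟨j - 1, by omega⟩
  rw [← h'.ch_iff, ← ch_congr (o := od E) (fun i' t1 t2 => ho i' t1 (by omega)), h.ch_iff]
  exact hE

end Pool.Agent.Lib.MP_04fdae_co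
end

-- part Pool.Agent.Lib.MP_04fdae_co.Rot
section

/-! Rooting a triangulation at an arbitrary side. -/

namespace Pool.Agent.Lib.MP_04fdae_co

open Finset

def ER {n : ℕ} (T : Finset (Fin n × Fin n)) (r i j : ℕ) : Prop :=
  i < j ∧ j < n ∧ ((i = 0 ∧ j = n - 1) ∨ ∃ p ∈ T,
    (p.1.val = (i + r) % n ∧ p.2.val = (j + r) % n) ∨
    (p.1.val = (j + r) % n ∧ p.2.val = (i + r) % n))

theorem phi_cases {n r i : ℕ} (hr : r < n) (hi : i < n) :
    ((i + r) % n = i + r ∧ i + r < n) ∨ ((i + r) % n + n = i + r) := by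
  by_cases h : i + r < n
  · exact Or.inl ⟨Nat.mod_eq_of_lt h, h⟩
  · right
    rw [Nat.mod_eq_sub_mod (by omega), Nat.mod_eq_of_lt (by omega)]
    omega

theorem phi_surj {n r y : ℕ} (hr : r < n) (hy : y < n) : ∃ k < n, (k + r) % n = y := by
  by_cases h : r ≤ y
  · exact ⟨y - r, by omega, by rw [Nat.sub_add_cancel h, Nat.mod_eq_of_lt hy]⟩
  · refine ⟨y + n - r, by omega, ?_⟩
    rw [show y + n - r + r = y + n by omega, Nat.add_mod_right, Nat.mod_eq_of_lt hy]

theorem exists_ER {n r : ℕ} (hr : r < n) {T : Finset (Fin n × Fin n)} {q : Fin n × Fin n}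
    (hq : q ∈ T) (hd : IsDiag q) : ∃ k l, ER T r k l ∧
      ((q.1.val = (k + r) % n ∧ q.2.val = (l + r) % n) ∨
        (q.1.val = (l + r) % n ∧ q.2.val = (k + r) % n)) := by
  obtain ⟨k, hk, h1⟩ := phi_surj hr q.1.2
  obtain ⟨l, hl, h2⟩ := phi_surj hr q.2.2
  have hne : k ≠ l := by
    rintro rfl
    have := hd.1; omega
  rcases lt_or_gt_of_ne hne with h | h
  · exact ⟨k, l, ⟨h, hl, Or.inr ⟨q, hq, Or.inl ⟨h1.symm, h2.symm⟩⟩⟩, Or.inl ⟨h1.symm, h2.symm⟩⟩
  · exact ⟨l, k, ⟨h, hk, Or.inr ⟨q, hq, Or.inr ⟨h1.symm, h2.symm⟩⟩⟩, Or.inr ⟨h1.symm, h2.symm⟩⟩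

theorem linTri_ER {n r : ℕ} (hn : 3 ≤ n) (hr : r < n) {T : Finset (Fin n × Fin n)}
    (hT : IsTriangulation T) : LinTri n (ER T r) := by
  obtain ⟨h1, h2, h3⟩ := hT
  refine ⟨?_, ⟨by omega, by omega, Or.inl ⟨rfl, rfl⟩⟩, ?_, ?_⟩
  · rintro i j ⟨t1, t2, t3 | ⟨p, hp, t3⟩⟩
    · omega
    · have d := h1 p hp
      unfold IsDiag at d
      have c1 := phi_cases hr (show i < n by omega)
      have c2 := phi_cases hr t2
      omega
  · rintro i j k l ⟨t1, t2, t3 | ⟨p, hp, t3⟩⟩ ⟨s1, s2, s3 | ⟨q, hq, s3⟩⟩
    · omega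
    · omega
    · omega
    · have d := h2 p hp q hq
      have dp := (h1 p hp).1
      have dq := (h1 q hq).1
      simp only [Cross, Fin.lt_def] at d
      have c1 := phi_cases hr (show i < n by omega)
      have c2 := phi_cases hr t2
      have c3 := phi_cases hr (show k < n by omega)
      have c4 := phi_cases hr s2
      omega
  · intro i j t1 t2 t3 hx
    have c1 := phi_cases hr (show i < n by omega)
    have c2 := phi_cases hr t3
    have m1 : (i + r) % n < n := Nat.mod_lt _ (by omega)
    have m2 : (j + r) % n < n := Nat.mod_lt _ (by omega)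
    obtain ⟨p, hp⟩ : ∃ p : Fin n × Fin n, p.1.val < p.2.val ∧
        ((p.1.val = (i + r) % n ∧ p.2.val = (j + r) % n) ∨
          (p.1.val = (j + r) % n ∧ p.2.val = (i + r) % n)) := by
      by_cases hlt : (i + r) % n < (j + r) % n
      · exact ⟨(⟨_, m1⟩, ⟨_, m2⟩), hlt, Or.inl ⟨rfl, rfl⟩⟩
      · exact ⟨(⟨_, m2⟩, ⟨_, m1⟩), by simp only; omega, Or.inr ⟨rfl, rfl⟩⟩
    refine ⟨by omega, t3, Or.inr ⟨p, h3 p ?_ ?_, hp.2⟩⟩
    · unfold IsDiag; omega
    · intro q hq
      obtain ⟨k, l, hE, hkl⟩ := exists_ER hr hq (h1 q hq)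
      have d := hx k l hE
      have s1 := hE.1
      have s2 := hE.2.1
      have c3 := phi_cases hr (show k < n by omega)
      have c4 := phi_cases hr s2
      simp only [Cross, Fin.lt_def]
      omega

theorem subset_of_ER {n r : ℕ} (hr : r < n) {T T' : Finset (Fin n × Fin n)}
    (hT : IsTriangulation T) (hT' : IsTriangulation T')
    (h : ∀ i j, ER T r i j → ER T' r i j) : T ⊆ T' := by
  intro q hq
  have d := hT.1 q hq
  obtain ⟨k, l, hE, hkl⟩ := exists_ER hr hq d
  obtain ⟨s1, s2, s3 | ⟨p, hp, s3⟩⟩ := h k l hE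
  · have c3 := phi_cases hr (show k < n by omega)
    have c4 := phi_cases hr s2
    unfold IsDiag at d
    omega
  · have d' := hT'.1 p hp
    unfold IsDiag at d d'
    have : q = p := Prod.ext (Fin.ext (by omega)) (Fin.ext (by omega))
    rw [this]; exact hp

theorem phi_window {n w a i : ℕ} (ha : a ≤ n) :
    (a + i + (w + n - a) % n) % n = (w + i) % n := by
  rw [Nat.add_mod_mod, show a + i + (w + n - a) = w + i + n by omega, Nat.add_mod_right]

/-- A diagonal inside the arc is a chord of the stack process started at the arc. -/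
theorem window_chord {n m : ℕ} (hn : 3 ≤ n) (w : Fin n) {p : Fin n × Fin n} (hd : IsDiag p)
    (h1 : InArc w m p.1) (h2 : InArc w m p.2) :
    ∃ t < m - 1, ∃ j, ∀ (T : Finset (Fin n × Fin n)) (a : ℕ), IsTriangulation T → p ∈ T →
      a + m ≤ n → Ch (fun i => od (ER T ((w.val + n - a) % n)) (a + i)) t j := by
  obtain ⟨i, hi, e1⟩ := h1
  obtain ⟨i', hi', e2⟩ := h2
  have hne : i ≠ i' := by
    rintro rfl
    have := hd.1; omega
  have hr : ∀ a, (w.val + n - a) % n < n := fun a => Nat.mod_lt _ (by omega)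
  rcases lt_or_gt_of_ne hne with h | h
  · refine ⟨i' - 1, by omega, i, fun T a hT hp ha => ?_⟩
    rw [ch_shift, (linTri_ER hn (hr a) hT).ch_iff, show a + (i' - 1) + 1 = a + i' by omega]
    refine ⟨by omega, by omega, Or.inr ⟨p, hp, Or.inl ?_⟩⟩
    rw [phi_window (by omega), phi_window (by omega)]
    exact ⟨e1, e2⟩
  · refine ⟨i - 1, by omega, i', fun T a hT hp ha => ?_⟩
    rw [ch_shift, (linTri_ER hn (hr a) hT).ch_iff, show a + (i - 1) + 1 = a + i by omega]
    refine ⟨by omega, by omega, Or.inr ⟨p, hp, Or.inr ?_⟩⟩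
    rw [phi_window (by omega), phi_window (by omega)]
    exact ⟨e1, e2⟩

/-- The cyclic rearrangement of `o 1, ..., o N` that starts at `o (a + 1)`. -/
def cyc (N a : ℕ) (o : ℕ → ℕ) (k : ℕ) : ℕ :=
  if k + a < N then o (k + a + 1) else o (k + a + 1 - N)

theorem sum_cyc {N a : ℕ} (ha : a ≤ N) (o : ℕ → ℕ) :
    ∑ k ∈ range N, cyc N a o k = ∑ i ∈ Icc 1 N, o i := by
  refine sum_nbij' (fun k => if k + a < N then k + a + 1 else k + a + 1 - N)
    (fun v => if a < v then v - a - 1 else v + N - a - 1) ?_ ?_ ?_ ?_ ?_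
  · intro k hk
    simp only [mem_range, mem_Icc] at hk ⊢
    split_ifs <;> omega
  · intro k hk
    simp only [mem_range, mem_Icc] at hk ⊢
    split_ifs <;> omega
  · intro k hk
    simp only [mem_range] at hk ⊢
    split_ifs <;> omega
  · intro k hk
    simp only [mem_Icc] at hk ⊢
    split_ifs <;> omega
  · intro k _
    unfold cyc
    split_ifs <;> rfl

theorem cyc_shift_false {N a a' : ℕ} (haa : a < a') (ha' : a' < N) {o o' : ℕ → ℕ}
    (hb : ∀ v, 1 ≤ v → ∑ i ∈ Icc 1 v, o i + 1 ≤ v)
    (hb' : ∀ v, 1 ≤ v → ∑ i ∈ Icc 1 v, o' i + 1 ≤ v)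
    (ht : ∑ i ∈ Icc 1 N, o i + 1 = N) (h : ∀ k < N, cyc N a o k = cyc N a' o' k) : False := by
  obtain ⟨d, rfl⟩ : ∃ d, a' = a + d := ⟨a' - a, by omega⟩
  have h1 := hb (N - d) (by omega)
  have h2 := hb' d (by omega)
  have h3 : ∑ i ∈ Icc 1 d, o' i = ∑ i ∈ Icc (N - d + 1) N, o i := by
    refine sum_nbij' (fun v => v + N - d) (fun v => v + d - N) ?_ ?_ ?_ ?_ ?_
    · intro k hk
      simp only [mem_Icc] at hk ⊢; omega
    · intro k hk
      simp only [mem_Icc] at hk ⊢; omega
    · intro k hk
      simp only [mem_Icc] at hk ⊢; omega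
    · intro k hk
      simp only [mem_Icc] at hk ⊢; omega
    · intro v hv
      simp only [mem_Icc] at hv
      have := h (v + N - (a + d) - 1) (by omega)
      unfold cyc at this
      rw [if_pos (by omega), if_neg (by omega),
        show v + N - (a + d) - 1 + a + 1 = v + N - d by omega,
        show v + N - (a + d) - 1 + (a + d) + 1 - N = v by omega] at this
      exact this.symm
  have h4 : ∑ i ∈ Icc 1 N, o i = ∑ i ∈ Icc 1 (N - d), o i + ∑ i ∈ Icc (N - d + 1) N, o i := by
    rw [← sum_union]
    · congr 1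
      ext i
      simp only [mem_Icc, mem_union]; omega
    · rw [disjoint_left]
      intro i h1 h2
      simp only [mem_Icc] at h1 h2; omega
  omega

theorem eq_of_cyc {N a : ℕ} (ha : a ≤ N) {o o' : ℕ → ℕ}
    (h : ∀ k < N, cyc N a o k = cyc N a o' k) (i : ℕ) (h1 : 1 ≤ i) (h2 : i ≤ N) : o i = o' i := by
  by_cases hi : a < i
  · have := h (i - a - 1) (by omega)
    unfold cyc at this
    rwa [if_pos (by omega), if_pos (by omega), show i - a - 1 + a + 1 = i by omega] at this
  · have := h (i + N - a - 1) (by omega)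
    unfold cyc at this
    rwa [if_neg (by omega), if_neg (by omega),
      show i + N - a - 1 + a + 1 - N = i by omega] at this

end Pool.Agent.Lib.MP_04fdae_co
end
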