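import Mathlib
import Pool.Agent.Lib.MP_04fdae_co.Rot

-- part Pool.Agent.Lib.MP_04fdae_co.Couple
section

/-! A coupling of four copies of the stack process without common chords. -/

namespace Pool.Agent.Lib.MP_04fdae_co

open Finset

def UU (M L : ℕ) : Finset Coin := range (M + 2) ×ˢ range L

theorem mem_UU {M L i t : ℕ} : (i, t) ∈ UU M L ↔ i < M + 2 ∧ t < L := by simp [UU]

structure Base (M L : ℕ) (x : ℕ → Bool) (k : ℕ) (P : Cp → PA) (o : Cp → ℕ → ℕ) : Prop where
  can : ∀ a i, i < M + 2 → P a (i, 0) = some (cb x a i)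
  det : ∀ a ω, ω ⊆ UU M L → Ext (P a) ω → ∀ i, 1 ≤ i → i ≤ k → oval ω i = o a i
  zer : ∀ a i, 1 ≤ i → i ≤ k → (o a i = 0 ↔ cb x a i = false)
  noc : ∀ a a', a ≠ a' → ∀ i < k, ∀ j, ¬ (Ch (o a) i j ∧ Ch (o a') i j)

theorem Base.mono {M L : ℕ} {x : ℕ → Bool} {k : ℕ} {P Q : Cp → PA} {o : Cp → ℕ → ℕ}
    (h : Base M L x k P o) (hQ : PLe P Q) : Base M L x k Q o :=
  ⟨fun a i hi => hQ _ _ _ (h.can a i hi), fun a ω h1 h2 => h.det a ω h1 (hQ.ext h2), h.zer, h.noc⟩

theorem Base.common {M L : ℕ} {x : ℕ → Bool} {k : ℕ} {P : Cp → PA} {o : Cp → ℕ → ℕ}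
    (h : Base M L x k P o) {a a' : Cp} (ha : a ≠ a') {i j : ℕ} (hi : cb x a i = cb x a' i)
    (h1 : j ∈ stk (o a) k) (h2 : j ∈ stk (o a') k) (hj : j < k) : (j + 1) % 3 = i % 3 := by
  have e1 := (h.zer a (j + 1) (by omega) (by omega)).mp (zero_of_mem_stk _ k j h1 hj)
  have e2 := (h.zer a' (j + 1) (by omega) (by omega)).mp (zero_of_mem_stk _ k j h2 hj)
  exact class_eq x ha (e1.trans e2.symm) hi

def SafeK (P : Cp → PA) (o : Cp → ℕ → ℕ) (k : ℕ) (A B : Cp) : Prop :=
  ∀ j ∈ stk (o A) k, j ∈ stk (o B) k → j < k →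
    (∃ s < rk (stk (o A) k) j, P A (k + 1, s) = some false) ∨
    (∃ s < rk (stk (o B) k) j, P B (k + 1, s) = some false)

theorem SafeK.mono {P Q : Cp → PA} {o : Cp → ℕ → ℕ} {k : ℕ} {A B : Cp} (h : SafeK P o k A B)
    (hQ : PLe P Q) : SafeK Q o k A B := by
  intro j h1 h2 h3
  rcases h j h1 h2 h3 with ⟨s, hs, h4⟩ | ⟨s, hs, h4⟩
  · exact Or.inl ⟨s, hs, hQ _ _ _ h4⟩
  · exact Or.inr ⟨s, hs, hQ _ _ _ h4⟩

def Pend (P : Cp → PA) (o : Cp → ℕ → ℕ) (k : ℕ) (A B : Cp) (e : ℕ) : Prop :=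
  e ∈ stk (o A) k ∧ e < k ∧ e % 3 ≠ (k + 1) % 3 ∧ P A (k + 1, rk (stk (o A) k) e) = none ∧
    ∀ j ∈ stk (o A) k, j ∈ stk (o B) k → j < k → j < e ∧ 2 ≤ rk (stk (o B) k) j

structure Inv (M L : ℕ) (x : ℕ → Bool) (k : ℕ) (P : Cp → PA) (o : Cp → ℕ → ℕ) : Prop where
  base : Base M L x k P o
  far : ∀ a i t, k + 1 < i → 1 ≤ t → P a (i, t) = none
  nb : ∀ a t, 1 ≤ t → cb x a k = true → P a (k + 1, t) = none
  na : ∀ a, ∀ γ ∈ stk (o a) k, γ < k → γ % 3 = (k + 1) % 3 →
    P a (k + 1, rk (stk (o a) k) γ) = none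
  saf : ∀ A B, cb x A (k + 1) = true → cb x A k = false → cb x B (k + 1) = true →
    cb x B k = true → SafeK P o k A B ∨ ∃ e, Pend P o k A B e

structure Roles (x : ℕ → Bool) (k : ℕ) (A B Y Z : Cp) : Prop where
  a1 : cb x A (k + 1) = true
  a0 : cb x A k = false
  b1 : cb x B (k + 1) = true
  b0 : cb x B k = true
  y2 : cb x Y (k + 2) = true
  y1 : cb x Y (k + 1) = true
  z2 : cb x Z (k + 2) = true
  z1 : cb x Z (k + 1) = false

theorem finish {M L : ℕ} (hL : M + 2 ≤ L) {Bf : Finset (Finset Coin)} {x : ℕ → Bool} {k : ℕ}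
    (hk : k < M) (hcont : ∀ Q o', Inv M L x (k + 1) Q o' → Good (UU M L) Bf Q)
    {P : Cp → PA} {o : Cp → ℕ → ℕ} {A B Y Z : Cp} (hr : Roles x k A B Y Z)
    (hb : Base M L x k P o) (hs : SafeK P o k A B)
    (far2 : ∀ a i t, k + 2 < i → 1 ≤ t → P a (i, t) = none)
    (nz : ∀ a, a ≠ Z → ∀ t, 1 ≤ t → P a (k + 2, t) = none)
    (naZ : ∀ γ ∈ stk (o Z) k, γ % 3 = (k + 2) % 3 → P Z (k + 2, rk (stk (o Z) k) γ + 1) = none)
    (θ : ℕ) (hθL : θ ≤ L) (hθ : ∀ t < θ, P Y (k + 1, t) = some true)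
    (out : (∀ j ∈ stk (o Y) k, j ∈ stk (o Z) k → θ ≤ rk (stk (o Y) k) j →
        ∃ s < rk (stk (o Z) k) j + 1, P Z (k + 2, s) = some false) ∨
      ∃ e ∈ stk (o Z) k, e % 3 ≠ (k + 2) % 3 ∧ P Z (k + 2, rk (stk (o Z) k) e + 1) = none ∧
        ∃ j0 ∈ stk (o Y) k, P Y (k + 1, rk (stk (o Y) k) j0) = some false ∧
          ∀ j ∈ stk (o Y) k, j ∈ stk (o Z) k → θ ≤ rk (stk (o Y) k) j → j < e ∧ j < j0) :
    Good (UU M L) Bf P := by
  classical
  refine good_fill (k + 1) P fun Q hQ hnone hfull => ?_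
  let ω0 : Cp → Finset Coin := fun a => (UU M L).filter (fun c => Q a c = some true)
  let o' : Cp → ℕ → ℕ := fun a => Function.update (o a) (k + 1) (oval (ω0 a) (k + 1))
  have ho1 : ∀ a i, i ≠ k + 1 → o' a i = o a i := fun a i hi => Function.update_of_ne hi _ _
  have ho2 : ∀ a, o' a (k + 1) = oval (ω0 a) (k + 1) := fun a => Function.update_self _ _ _
  have hst : ∀ a, stk (o' a) k = stk (o a) k := fun a =>
    stk_congr k fun i _ h => ho1 a i (by omega)
  have hF : ∀ a t, Q a (k + 1, t) = some false → o' a (k + 1) ≤ t := by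
    intro a t h
    rw [ho2]
    exact oval_le (by simp [ω0, h])
  have hT : ∀ a θ', θ' ≤ L → (∀ t < θ', Q a (k + 1, t) = some true) → θ' ≤ o' a (k + 1) := by
    intro a θ' h1 h
    rw [ho2]
    refine le_oval fun t ht => ?_
    simp only [ω0, mem_filter, mem_UU]
    exact ⟨⟨by omega, by omega⟩, h t ht⟩
  have hbQ := hb.mono hQ
  have hzer : ∀ a, o' a (k + 1) = 0 ↔ cb x a (k + 1) = false := by
    intro a
    have h0 := hbQ.can a (k + 1) (by omega)
    cases hc : cb x a (k + 1)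
    · rw [hc] at h0
      have := hF a 0 h0
      simp; omega
    · rw [hc] at h0
      have := hT a 1 (by omega) (fun t ht => by
        have : t = 0 := by omega
        subst this; exact h0)
      simp; omega
  have hZ0 : o' Z (k + 1) = 0 := (hzer Z).mpr hr.z1
  have hstZ : stk (o' Z) (k + 1) = insert (k + 1) (stk (o Z) k) := by
    rw [stk_succ_of_zero hZ0, hst]
  have hrkZ : ∀ j ≤ k, rk (stk (o' Z) (k + 1)) j = rk (stk (o Z) k) j + 1 := by
    intro j hj
    rw [hstZ, rk_insert (succ_not_mem_stk _ _) (by omega)]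
  have hθY : θ ≤ o' Y (k + 1) := hT Y θ hθL fun t ht => hQ _ _ _ (hθ t ht)
  have hsQ := hs.mono hQ
  refine hcont Q o' ⟨⟨hbQ.can, ?_, ?_, ?_⟩, ?_, ?_, ?_, ?_⟩
  · intro a ω h1 h2 i hi1 hi2
    by_cases hi : i = k + 1
    · subst hi
      rw [ho2]
      refine oval_congr fun t => ?_
      by_cases hU : (k + 1, t) ∈ UU M L
      · obtain ⟨b, hb⟩ := Option.ne_none_iff_exists'.mp (hfull a _ hU rfl)
        rw [h2 _ b hb]
        simp [ω0, hU, hb]
      · exact ⟨fun h => absurd (h1 h) hU, fun h => absurd (mem_filter.mp h).1 hU⟩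
    · rw [ho1 a i hi]
      exact hbQ.det a ω h1 h2 i hi1 (by omega)
  · intro a i hi1 hi2
    by_cases hi : i = k + 1
    · subst hi; exact hzer a
    · rw [ho1 a i hi]; exact hb.zer a i hi1 (by omega)
  · intro a a' haa i hi j ⟨h1, h2⟩
    by_cases hik : i = k
    · subst hik
      unfold Ch at h1 h2
      rw [hst] at h1 h2
      have e1 := one_le_rk (o := o a) h1.2.1
      have e2 := one_le_rk (o := o a') h1.2.1
      have c1 : cb x a (i + 1) = true := by
        by_contra hh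
        have := (hzer a).mpr (by simpa using hh)
        omega
      have c2 : cb x a' (i + 1) = true := by
        by_contra hh
        have := (hzer a').mpr (by simpa using hh)
        omega
      have key : ∀ a a' : Cp, a = A → a' = B → j ∈ stk (o a) i → j ∈ stk (o a') i →
          rk (stk (o a) i) j ≤ o' a (i + 1) → rk (stk (o a') i) j ≤ o' a' (i + 1) → False := by
        rintro a a' rfl rfl m1 m2 r1 r2
        rcases hsQ j m1 m2 h1.2.1 with ⟨s, hs, h4⟩ | ⟨s, hs, h4⟩
        · have := hF _ _ h4; omega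
        · have := hF _ _ h4; omega
      cases ha : cb x a i <;> cases ha' : cb x a' i
      · exact haa (role_unique x i (c1.trans c2.symm) (ha.trans ha'.symm))
      · exact key a a' (role_unique x i (c1.trans hr.a1.symm) (ha.trans hr.a0.symm))
          (role_unique x i (c2.trans hr.b1.symm) (ha'.trans hr.b0.symm)) h1.1 h2.1 h1.2.2 h2.2.2
      · exact key a' a (role_unique x i (c2.trans hr.a1.symm) (ha'.trans hr.a0.symm))
          (role_unique x i (c1.trans hr.b1.symm) (ha.trans hr.b0.symm)) h2.1 h1.1 h2.2.2 h1.2.2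
      · exact haa (role_unique x i (c1.trans c2.symm) (ha.trans ha'.symm))
    · rw [ch_congr (o' := o a) (fun i' _ h => ho1 a i' (by omega))] at h1
      rw [ch_congr (o' := o a') (fun i' _ h => ho1 a' i' (by omega))] at h2
      exact hb.noc a a' haa i (by omega) j ⟨h1, h2⟩
  · intro a i t hi ht
    exact hnone a _ (by simp; omega) (far2 a i t (by omega) ht)
  · intro a t ht hc
    refine hnone a _ (by simp) (nz a ?_ t ht)
    rintro rfl
    rw [hr.z1] at hc; cases hc
  · intro a γ hγ hlt hmod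
    refine hnone a _ (by simp) ?_
    by_cases haZ : a = Z
    · subst haZ
      rw [hrkZ γ (by omega)]
      rw [hstZ, mem_insert] at hγ
      exact naZ γ (hγ.resolve_left (by omega)) hmod
    · exact nz a haZ _ (one_le_rk hlt)
  · intro A' B' h1 h2 h3 h4
    obtain rfl : A' = Z := role_unique x (k + 1) (h1.trans hr.z2.symm) (h2.trans hr.z1.symm)
    obtain rfl : B' = Y := role_unique x (k + 1) (h3.trans hr.y2.symm) (h4.trans hr.y1.symm)
    have hcom : ∀ j ∈ stk (o' A') (k + 1), j ∈ stk (o' B') (k + 1) → j < k + 1 →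
        j ∈ stk (o B') k ∧ j ∈ stk (o A') k ∧ θ ≤ rk (stk (o B') k) j := by
      intro j m1 m2 hj
      rw [hstZ, mem_insert] at m1
      rw [mem_stk_succ, hst] at m2
      have m3 := m2.resolve_left (by omega)
      exact ⟨m3.1, m1.resolve_left (by omega), hθY.trans m3.2⟩
    rcases out with out | ⟨e, he1, he2, he3, j0, hj1, hj2, out⟩
    · left
      intro j m1 m2 hj
      obtain ⟨n1, n2, n3⟩ := hcom j m1 m2 hj
      obtain ⟨s, hs1, hs2⟩ := out j n1 n2 n3
      left
      exact ⟨s, by rw [hrkZ j (by omega)]; exact hs1, hQ _ _ _ hs2⟩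
    · right
      have hek := mem_stk_le _ _ _ he1
      refine ⟨e, by rw [hstZ]; exact mem_insert_of_mem he1, by omega, he2, ?_, ?_⟩
      · rw [hrkZ e hek]
        exact hnone _ _ (by simp) he3
      · intro j m1 m2 hj
        obtain ⟨n1, n2, n3⟩ := hcom j m1 m2 hj
        obtain ⟨l1, l2⟩ := out j n1 n2 n3
        refine ⟨l1, ?_⟩
        have hj0 : j0 ∈ stk (o' B') (k + 1) := by
          rw [mem_stk_succ, hst]
          exact Or.inr ⟨hj1, hF _ _ (hQ _ _ _ hj2)⟩
        have hj0k := mem_stk_le _ _ _ hj1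
        have t1 := rk_lt_rk hj0 l2
        have t2 := one_le_rk (o := o' B') (k := k + 1) (j := j0) (by omega)
        omega

structure Scan (M L : ℕ) (x : ℕ → Bool) (k : ℕ) (o : Cp → ℕ → ℕ) (A B Y Z : Cp) (u : ℕ)
    (P : Cp → PA) (e : ℕ) : Prop where
  base : Base M L x k P o
  sp : SafeK P o k A B ∨ (Y = B ∧ cnt (stk (o Y) k) u = 1 ∧ P B (k + 1, 1) = none ∧
    ∃ e0, Pend P o k A B e0)
  tr : ∀ t < cnt (stk (o Y) k) u, P Y (k + 1, t) = some true
  un : ∀ j ∈ stk (o Y) k, j < u → j ∈ stk (o Z) k → P Y (k + 1, rk (stk (o Y) k) j) = none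
  he : e ∈ stk (o Z) k ∧ u ≤ e ∧ e % 3 ≠ (k + 2) % 3
  zn : ∀ γ ∈ stk (o Z) k, (γ ≤ e ∨ γ % 3 = (k + 2) % 3) →
    P Z (k + 2, rk (stk (o Z) k) γ + 1) = none
  far2 : ∀ a i t, k + 2 < i → 1 ≤ t → P a (i, t) = none
  nz : ∀ a, a ≠ Z → ∀ t, 1 ≤ t → P a (k + 2, t) = none

theorem scan {M L : ℕ} (hL : M + 2 ≤ L) {Bf : Finset (Finset Coin)} {x : ℕ → Bool} {k : ℕ}
    (hk : k < M) (hcont : ∀ Q o', Inv M L x (k + 1) Q o' → Good (UU M L) Bf Q)
    {o : Cp → ℕ → ℕ} {A B Y Z : Cp} (hr : Roles x k A B Y Z) :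
    ∀ u ≤ k, ∀ P e, Scan M L x k o A B Y Z u P e → Good (UU M L) Bf P := by
  classical
  have hYZ : Y ≠ Z := by
    rintro rfl
    have := hr.y1.symm.trans hr.z1; cases this
  have hAZ : A ≠ Z := by
    rintro rfl
    have := hr.a1.symm.trans hr.z1; cases this
  have hAB : A ≠ B := by
    rintro rfl
    have := hr.b0.symm.trans hr.a0; cases this
  have hcL : ∀ a u, cnt (stk (o a) k) u ≤ k + 1 := fun a u =>
    (cnt_le_card _ _).trans (card_stk_le _ _)
  intro u
  induction u with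
  | zero =>
    intro _ P e h
    have hs : SafeK P o k A B := by
      rcases h.sp with hs | ⟨rfl, h1, _, e0, h2⟩
      · exact hs
      · intro j m1 m2 hj
        have t1 := (h2.2.2.2.2 j m1 m2 hj).2
        have t2 := rk_lt_cnt m2 (Nat.zero_le j)
        omega
    refine finish hL hk hcont hr h.base hs h.far2 h.nz (fun γ h1 h2 => h.zn γ h1 (Or.inr h2))
      (cnt (stk (o Y) k) 0) (by have := hcL Y 0; omega) h.tr (Or.inl ?_)
    intro j m1 _ h3
    have := rk_lt_cnt m1 (Nat.zero_le j)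
    omega
  | succ u ih =>
    intro hu P e h
    have ih := ih (by omega)
    obtain ⟨he1, he2, he3⟩ := h.he
    by_cases hm : u ∈ stk (o Y) k
    swap
    · refine ih P e ⟨h.base, ?_, ?_, fun j m1 hj m2 => h.un j m1 (by omega) m2,
        ⟨he1, by omega, he3⟩, h.zn, h.far2, h.nz⟩
      · rw [cnt_of_not_mem hm]; exact h.sp
      · rw [cnt_of_not_mem hm]; exact h.tr
    have hr1 : rk (stk (o Y) k) u = cnt (stk (o Y) k) (u + 1) := rfl
    have hcu := cnt_of_mem hm
    have hle : ∀ j ∈ stk (o Y) k, rk (stk (o Y) k) u ≤ rk (stk (o Y) k) j → j ≤ u := by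
      intro j m1 hj
      by_contra hh
      have := rk_lt_rk m1 (not_le.mp hh)
      omega
    rcases hv : P Y (k + 1, rk (stk (o Y) k) u) with _ | b
    swap
    · have hs : SafeK P o k A B := by
        rcases h.sp with hs | ⟨rfl, h1, h2, _⟩
        · exact hs
        · rw [hr1, h1, h2] at hv; cases hv
      have hnc : u ∉ stk (o Z) k := fun hc => by
        rw [h.un u hm (by omega) hc] at hv; cases hv
      cases b
      · refine finish hL hk hcont hr h.base hs h.far2 h.nz
          (fun γ h1 h2 => h.zn γ h1 (Or.inr h2)) (rk (stk (o Y) k) u)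
          (by have := hcL Y (u + 1); omega) h.tr
          (Or.inr ⟨e, he1, he3, h.zn e he1 (Or.inl le_rfl), u, hm, hv, ?_⟩)
        intro j m1 m2 h3
        have := hle j m1 h3
        have : j ≠ u := by rintro rfl; exact hnc m2
        omega
      · refine ih P e ⟨h.base, Or.inl hs, ?_, fun j m1 hj m2 => h.un j m1 (by omega) m2,
          ⟨he1, by omega, he3⟩, h.zn, h.far2, h.nz⟩
        intro t ht
        by_cases htt : t = rk (stk (o Y) k) u
        · rw [htt]; exact hv
        · exact h.tr t (by omega)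
    obtain ⟨e0, he0⟩ : ∃ e0, ¬ SafeK P o k A B →
        (Y = B ∧ cnt (stk (o Y) k) (u + 1) = 1 ∧ Pend P o k A B e0) := by
      rcases h.sp with hs | ⟨h1, h2, _, e0, h3⟩
      · exact ⟨0, fun hh => absurd hs hh⟩
      · exact ⟨e0, fun _ => ⟨h1, h2, h3⟩⟩
    let τ : Cp → Option (Coin × Bool) := fun a =>
      if a = Y then some ((k + 1, rk (stk (o Y) k) u), false)
      else if a = Z ∧ u ∈ stk (o Z) k then some ((k + 2, rk (stk (o Z) k) e + 1), false)
      else if a = A ∧ ¬ SafeK P o k A B then some ((k + 1, rk (stk (o A) k) e0), true)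
      else none
    have hτc : ∀ a c s, τ a = some (c, s) →
        (a = Y ∧ c = (k + 1, rk (stk (o Y) k) u)) ∨
        (a = Z ∧ u ∈ stk (o Z) k ∧ c = (k + 2, rk (stk (o Z) k) e + 1)) ∨
        (a ≠ Y ∧ a = A ∧ ¬ SafeK P o k A B ∧ c = (k + 1, rk (stk (o A) k) e0)) := by
      intro a c s ht
      simp only [τ] at ht
      split_ifs at ht with h1 h2 h3
      · simp only [Option.some.injEq, Prod.mk.injEq] at ht
        exact Or.inl ⟨h1, ht.1.symm⟩
      · simp only [Option.some.injEq, Prod.mk.injEq] at ht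
        exact Or.inr (Or.inl ⟨h2.1, h2.2, ht.1.symm⟩)
      · simp only [Option.some.injEq, Prod.mk.injEq] at ht
        exact Or.inr (Or.inr ⟨h1, h3.1, h3.2, ht.1.symm⟩)
    have hτ : ∀ a c s, τ a = some (c, s) → c ∈ UU M L ∧ P a c = none := by
      intro a c s ht
      rcases hτc a c s ht with ⟨rfl, rfl⟩ | ⟨rfl, _, rfl⟩ | ⟨_, rfl, h1, rfl⟩
      · have := rk_stk_le hm
        exact ⟨mem_UU.mpr ⟨by omega, by omega⟩, hv⟩
      · have := rk_stk_le he1
        exact ⟨mem_UU.mpr ⟨by omega, by omega⟩, h.zn e he1 (Or.inl le_rfl)⟩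
      · obtain ⟨_, _, h2⟩ := he0 h1
        have := rk_stk_le h2.1
        exact ⟨mem_UU.mpr ⟨by omega, by omega⟩, h2.2.2.2.1⟩
    refine good_step τ hτ fun b => ?_
    have hPQ : PLe P (app P τ b) := app_le (fun a c s h => (hτ a c s h).2) b
    have hQY : app P τ b Y (k + 1, rk (stk (o Y) k) u) = some b := by
      rw [app_self (s := false) (by simp [τ])]; simp
    have hQZ : u ∈ stk (o Z) k → app P τ b Z (k + 2, rk (stk (o Z) k) e + 1) = some b := by
      intro hc
      rw [app_self (s := false) (by simp [τ, hYZ.symm, hc])]; simp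
    have hs : SafeK (app P τ b) o k A B := by
      by_cases hs : SafeK P o k A B
      · exact hs.mono hPQ
      · obtain ⟨rfl, h1, h2⟩ := he0 hs
        intro j m1 m2 hj
        obtain ⟨t1, t2⟩ := h2.2.2.2.2 j m1 m2 hj
        cases b
        · right
          exact ⟨_, by omega, hQY⟩
        · left
          refine ⟨_, rk_lt_rk h2.1 t1, ?_⟩
          rw [app_self (s := true) (by simp [τ, hAB, hAZ, hs])]; simp
    have hfar : ∀ a i t, k + 2 < i → 1 ≤ t → app P τ b a (i, t) = none := by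
      intro a i t hi ht
      refine app_none (h.far2 a i t hi ht) (fun s hs => ?_) b
      rcases hτc _ _ _ hs with ⟨_, h1⟩ | ⟨_, _, h1⟩ | ⟨_, _, _, h1⟩ <;>
        simp only [Prod.mk.injEq] at h1 <;> omega
    have hnz : ∀ a, a ≠ Z → ∀ t, 1 ≤ t → app P τ b a (k + 2, t) = none := by
      intro a ha t ht
      refine app_none (h.nz a ha t ht) (fun s hs => ?_) b
      rcases hτc _ _ _ hs with ⟨_, h1⟩ | ⟨h1, _⟩ | ⟨_, _, _, h1⟩
      · simp only [Prod.mk.injEq] at h1; omega
      · exact ha h1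
      · simp only [Prod.mk.injEq] at h1; omega
    have hzn : ∀ γ ∈ stk (o Z) k, (γ ≤ e ∨ γ % 3 = (k + 2) % 3) → (u ∈ stk (o Z) k → γ ≠ e) →
        app P τ b Z (k + 2, rk (stk (o Z) k) γ + 1) = none := by
      intro γ m1 h1 h2
      refine app_none (h.zn γ m1 h1) (fun s hs => ?_) b
      rcases hτc _ _ _ hs with ⟨_, h1⟩ | ⟨_, h3, h1⟩ | ⟨_, _, _, h1⟩
      · simp only [Prod.mk.injEq] at h1; omega
      · simp only [Prod.mk.injEq] at h1
        exact h2 h3 (rk_inj m1 he1 (by omega))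
      · simp only [Prod.mk.injEq] at h1; omega
    have hna : ∀ γ ∈ stk (o Z) k, γ % 3 = (k + 2) % 3 →
        app P τ b Z (k + 2, rk (stk (o Z) k) γ + 1) = none := by
      intro γ m1 h1
      refine hzn γ m1 (Or.inr h1) fun _ => ?_
      rintro rfl; exact he3 h1
    have htr : ∀ t < rk (stk (o Y) k) u, app P τ b Y (k + 1, t) = some true :=
      fun t ht => hPQ _ _ _ (h.tr t ht)
    cases b
    · by_cases hc : u ∈ stk (o Z) k
      · refine finish hL hk hcont hr (h.base.mono hPQ) hs hfar hnz hna (rk (stk (o Y) k) u)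
          (by have := hcL Y (u + 1); omega) htr (Or.inl ?_)
        intro j m1 m2 h3
        have := hle j m1 h3
        have := rk_lt_rk he1 (show j < e by omega)
        exact ⟨_, by omega, hQZ hc⟩
      · refine finish hL hk hcont hr (h.base.mono hPQ) hs hfar hnz hna (rk (stk (o Y) k) u)
          (by have := hcL Y (u + 1); omega) htr
          (Or.inr ⟨e, he1, he3, hzn e he1 (Or.inl le_rfl) (fun hh => absurd hh hc), u, hm, hQY,
            ?_⟩)
        intro j m1 m2 h3
        have := hle j m1 h3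
        have : j ≠ u := by rintro rfl; exact hc m2
        omega
    · have htr' : ∀ t < cnt (stk (o Y) k) u, app P τ true Y (k + 1, t) = some true := by
        intro t ht
        by_cases htt : t = rk (stk (o Y) k) u
        · rw [htt]; exact hQY
        · exact htr t (by omega)
      have hun : ∀ j ∈ stk (o Y) k, j < u → j ∈ stk (o Z) k →
          app P τ true Y (k + 1, rk (stk (o Y) k) j) = none := by
        intro j m1 hj m2
        refine app_none (h.un j m1 (by omega) m2) (fun s hs => ?_) true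
        rcases hτc _ _ _ hs with ⟨_, h1⟩ | ⟨h1, _⟩ | ⟨h1, _⟩
        · simp only [Prod.mk.injEq] at h1
          have := rk_inj m1 hm h1.2
          omega
        · exact hYZ h1
        · exact h1 rfl
      by_cases hc : u ∈ stk (o Z) k
      · have hmod := h.base.common hYZ (hr.y2.trans hr.z2.symm) hm hc (by omega)
        refine ih _ u ⟨h.base.mono hPQ, Or.inl hs, htr', hun, ⟨hc, le_rfl, by omega⟩, ?_, hfar,
          hnz⟩
        intro γ m1 h1
        rcases h1 with h1 | h1
        · exact hzn γ m1 (Or.inl (by omega)) (fun _ => by omega)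
        · exact hna γ m1 h1
      · exact ih _ e ⟨h.base.mono hPQ, Or.inl hs, htr', hun, ⟨he1, by omega, he3⟩,
          fun γ m1 h1 => hzn γ m1 h1 (fun hh => absurd hh hc), hfar, hnz⟩

theorem stage {M L : ℕ} (hL : M + 2 ≤ L) {Bf : Finset (Finset Coin)} {x : ℕ → Bool} {k : ℕ}
    (hk : k < M) (hcont : ∀ Q o', Inv M L x (k + 1) Q o' → Good (UU M L) Bf Q)
    {P : Cp → PA} {o : Cp → ℕ → ℕ} (h : Inv M L x k P o) : Good (UU M L) Bf P := by
  classical
  obtain ⟨A, a1, a0⟩ := role_exists x k true false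
  obtain ⟨B, b1, b0⟩ := role_exists x k true true
  obtain ⟨Y, y2, y1⟩ := role_exists x (k + 1) true true
  obtain ⟨Z, z2, z1⟩ := role_exists x (k + 1) true false
  have hr : Roles x k A B Y Z := ⟨a1, a0, b1, b0, y2, y1, z2, z1⟩
  have hYZ : Y ≠ Z := by
    rintro rfl
    have := y1.symm.trans z1; cases this
  have hAB : A ≠ B := by
    rintro rfl
    have := b0.symm.trans a0; cases this
  have hun : ∀ j ∈ stk (o Y) k, j < k → j ∈ stk (o Z) k → j % 3 = (k + 1) % 3 := by
    intro j m1 hj m2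
    have := h.base.common hYZ (y2.trans z2.symm) m1 m2 hj
    omega
  have main : ∀ Q, PLe P Q → (∀ a i t, i ≠ k + 1 → P a (i, t) = none → Q a (i, t) = none) →
      (∀ j ∈ stk (o Y) k, j < k → j % 3 = (k + 1) % 3 →
        Q Y (k + 1, rk (stk (o Y) k) j) = none) →
      (SafeK Q o k A B ∨ (Y = B ∧ Q B (k + 1, 1) = none ∧ ∃ e0, Pend Q o k A B e0)) →
      Good (UU M L) Bf Q := by
    intro Q hQ h1 h2 h3
    refine scan hL hk hcont hr k le_rfl Q k ⟨h.base.mono hQ, ?_, ?_,
      fun j m1 hj m2 => h2 j m1 hj (hun j m1 hj m2), ⟨top_mem_stk _ _, le_rfl, by omega⟩,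
      fun γ _ _ => h1 _ _ _ (by omega) (h.far _ _ _ (by omega) (by omega)),
      fun a i t hi ht => h1 _ _ _ (by omega) (h.far _ _ _ (by omega) ht),
      fun a _ t ht => h1 _ _ _ (by omega) (h.far _ _ _ (by omega) ht)⟩
    · rcases h3 with h3 | ⟨h3, h4, h5⟩
      · exact Or.inl h3
      · exact Or.inr ⟨h3, cnt_stk_top _ _, h4, h5⟩
    · intro t ht
      rw [cnt_stk_top] at ht
      obtain rfl : t = 0 := by omega
      rw [← y1]
      exact hQ _ _ _ (h.base.can Y (k + 1) (by omega))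
  rcases h.saf A B a1 a0 b1 b0 with hs | ⟨e0, he0⟩
  · exact main P (PLe.refl P) (fun _ _ _ _ h => h) (h.na Y) (Or.inl hs)
  by_cases hYB : Y = B
  · exact main P (PLe.refl P) (fun _ _ _ _ h => h) (h.na Y)
      (Or.inr ⟨hYB, h.nb B 1 le_rfl b0, e0, he0⟩)
  have hYA : Y = A := by
    refine role_unique x k (y1.trans a1.symm) ?_
    cases hy : cb x Y k
    · exact a0.symm
    · exact absurd (role_unique x k (y1.trans b1.symm) (hy.trans b0.symm)) hYB
  subst hYA
  let τ : Cp → Option (Coin × Bool) := fun a =>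
    if a = B then some ((k + 1, 1), false)
    else if a = Y then some ((k + 1, rk (stk (o Y) k) e0), true) else none
  have hτc : ∀ a c s, τ a = some (c, s) →
      (a = B ∧ c = (k + 1, 1)) ∨ (a = Y ∧ c = (k + 1, rk (stk (o Y) k) e0)) := by
    intro a c s ht
    simp only [τ] at ht
    split_ifs at ht with h1 h2
    · simp only [Option.some.injEq, Prod.mk.injEq] at ht
      exact Or.inl ⟨h1, ht.1.symm⟩
    · simp only [Option.some.injEq, Prod.mk.injEq] at ht
      exact Or.inr ⟨h2, ht.1.symm⟩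
  have hτ : ∀ a c s, τ a = some (c, s) → c ∈ UU M L ∧ P a c = none := by
    intro a c s ht
    rcases hτc a c s ht with ⟨rfl, rfl⟩ | ⟨rfl, rfl⟩
    · exact ⟨mem_UU.mpr ⟨by omega, by omega⟩, h.nb _ 1 le_rfl b0⟩
    · have := rk_stk_le he0.1
      exact ⟨mem_UU.mpr ⟨by omega, by omega⟩, he0.2.2.2.1⟩
  refine good_step τ hτ fun b => ?_
  have hPQ : PLe P (app P τ b) := app_le (fun a c s h => (hτ a c s h).2) b
  refine main _ hPQ ?_ ?_ (Or.inl ?_)
  · intro a i t hi hn
    refine app_none hn (fun s hs => ?_) b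
    rcases hτc _ _ _ hs with ⟨_, h1⟩ | ⟨_, h1⟩ <;> simp only [Prod.mk.injEq] at h1 <;> omega
  · intro j m1 hj hmod
    refine app_none (h.na Y j m1 hj hmod) (fun s hs => ?_) b
    rcases hτc _ _ _ hs with ⟨h1, _⟩ | ⟨_, h1⟩
    · exact hYB h1
    · simp only [Prod.mk.injEq] at h1
      have := rk_inj m1 he0.1 h1.2
      subst this
      exact he0.2.2.1 hmod
  · intro j m1 m2 hj
    obtain ⟨t1, t2⟩ := he0.2.2.2.2 j m1 m2 hj
    cases b
    · right
      refine ⟨1, by omega, ?_⟩
      rw [app_self (s := false) (by simp [τ])]; simp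
    · left
      refine ⟨_, rk_lt_rk he0.1 t1, ?_⟩
      rw [app_self (s := true) (by simp [τ, hYB])]; simp

end Pool.Agent.Lib.MP_04fdae_co
end

-- part Pool.Agent.Lib.MP_04fdae_co.Weight
section

/-! The Erdos-Ko-Rado bound 1/4 in the independent geometric model. -/

namespace Pool.Agent.Lib.MP_04fdae_co

open Finset

def canP (x : ℕ → Bool) (i : ℕ) : Cp → PA := fun a c =>
  if c.2 = 0 ∧ c.1 < i then some (cb x a c.1) else none

theorem good_end {M L : ℕ} {Bf : Finset (Finset Coin)} (hB : Bf ⊆ (UU M L).powerset)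
    (hint : ∀ ω ∈ Bf, ∀ ω' ∈ Bf, ∃ i < M, ∃ j, Ch (oval ω) i j ∧ Ch (oval ω') i j)
    {x : ℕ → Bool} {P : Cp → PA} {o : Cp → ℕ → ℕ} (h : Base M L x M P o) :
    Good (UU M L) Bf P := by
  classical
  have key : ∀ a a', val (UU M L) Bf (P a) ≠ 0 → val (UU M L) Bf (P a') ≠ 0 → a = a' := by
    intro a a' h1 h2
    by_contra hne
    unfold val at h1 h2
    obtain ⟨ω, hω⟩ := card_ne_zero.mp (left_ne_zero_of_mul h1)
    obtain ⟨ω', hω'⟩ := card_ne_zero.mp (left_ne_zero_of_mul h2)
    rw [mem_filter] at hω hω'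
    obtain ⟨i, hi, j, c1, c2⟩ := hint ω hω.1 ω' hω'.1
    rw [ch_congr (o' := o a) (fun i' t1 t2 =>
      h.det a ω (mem_powerset.mp (hB hω.1)) hω.2 i' t1 (by omega))] at c1
    rw [ch_congr (o' := o a') (fun i' t1 t2 =>
      h.det a' ω' (mem_powerset.mp (hB hω'.1)) hω'.2 i' t1 (by omega))] at c2
    exact h.noc a a' hne i hi j ⟨c1, c2⟩
  unfold Good
  by_cases hz : ∀ a, val (UU M L) Bf (P a) = 0
  · simp [hz]
  · push Not at hz
    obtain ⟨a, ha⟩ := hz
    rw [sum_eq_single a]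
    · exact val_le hB _
    · intro b _ hb
      by_contra hh
      exact hb (key b a hh ha)
    · simp

theorem four_mul_card_le {M L : ℕ} (hL : M + 2 ≤ L) {Bf : Finset (Finset Coin)}
    (hB : Bf ⊆ (UU M L).powerset)
    (hint : ∀ ω ∈ Bf, ∀ ω' ∈ Bf, ∃ i < M, ∃ j, Ch (oval ω) i j ∧ Ch (oval ω') i j) :
    4 * Bf.card ≤ 2 ^ (UU M L).card := by
  classical
  have h1 : ∀ x d, d ≤ M → ∀ P o, Inv M L x (M - d) P o → Good (UU M L) Bf P := by
    intro x d
    induction d with
    | zero => intro _ P o h; exact good_end hB hint h.base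
    | succ d ih =>
      intro hd P o h
      refine stage hL (k := M - (d + 1)) (by omega) (fun Q o' hQ => ih (by omega) Q o' ?_) h
      rwa [show M - (d + 1) + 1 = M - d by omega] at hQ
  have h2 : ∀ x, Good (UU M L) Bf (canP x (M + 2)) := by
    intro x
    refine h1 x M le_rfl _ (fun _ _ => 0) ?_
    rw [Nat.sub_self]
    refine ⟨⟨?_, ?_, ?_, ?_⟩, ?_, ?_, ?_, ?_⟩
    · intro a i hi; simp [canP, hi]
    · intro a ω _ _ i h1 h2; omega
    · intro a i h1 h2; omega
    · intro a a' _ i hi; omega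
    · intro a i t _ ht; simp [canP]; omega
    · intro a t ht _; simp [canP]; omega
    · intro a γ _ h; omega
    · intro A B _ _ _ _; left; intro j _ _ h; omega
  have h3 : ∀ d, d ≤ M + 2 → ∀ x, Good (UU M L) Bf (canP x (M + 2 - d)) := by
    intro d
    induction d with
    | zero => intro _ x; exact h2 x
    | succ d ih =>
      intro hd x
      set i := M + 2 - (d + 1) with hi
      refine good_step (fun a => some ((i, 0), chi (i % 3) a)) ?_ fun y => ?_
      · intro a c s h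
        simp only [Option.some.injEq, Prod.mk.injEq] at h
        rw [← h.1]
        exact ⟨mem_UU.mpr ⟨by omega, by omega⟩, by simp [canP]⟩
      · have := ih (by omega) (Function.update x i y)
        rw [show M + 2 - d = i + 1 by omega] at this
        convert this using 1
        funext a ⟨c1, c2⟩
        simp only [app]
        by_cases hc : (c1, c2) = (i, 0)
        · rw [hc]; simp [canP, cb]
        · rw [Function.update_of_ne hc]
          simp only [Prod.mk.injEq] at hc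
          simp only [canP, cb]
          by_cases h1 : c2 = 0 ∧ c1 < i
          · rw [if_pos h1, if_pos ⟨h1.1, by omega⟩, Function.update_of_ne (by omega)]
          · rw [if_neg h1, if_neg (by omega)]
  have h4 := h3 (M + 2) le_rfl (fun _ => false)
  rw [Nat.sub_self] at h4
  unfold Good at h4
  have h5 : ∀ a, val (UU M L) Bf (canP (fun _ => false) 0 a) = Bf.card := by
    intro a
    unfold val
    rw [filter_true_of_mem, filter_false_of_mem]
    · simp
    · intro c _; simp [canP]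
    · intro ω _ c b h; simp [canP] at h
  simpa [h5] using h4

/-- The cylinder of coins that forces the pattern `w` on the phases `1, ..., M`. -/
def cyl (M : ℕ) (w : ℕ → ℕ) : PA := fun c =>
  if 1 ≤ c.1 ∧ c.1 ≤ M then
    (if c.2 < w c.1 then some true else if c.2 = w c.1 then some false else none)
  else none

theorem oval_of_cyl {M : ℕ} {w : ℕ → ℕ} {ω : Finset Coin} (h : Ext (cyl M w) ω) {i : ℕ}
    (h1 : 1 ≤ i) (h2 : i ≤ M) : oval ω i = w i := by
  apply le_antisymm
  · refine oval_le fun hh => ?_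
    have := (h (i, w i) false (by simp [cyl, h1, h2])).mp hh
    cases this
  · exact le_oval fun t ht => (h (i, t) true (by simp [cyl, h1, h2, ht])).mpr rfl

theorem dom_cyl {M L : ℕ} {w : ℕ → ℕ} (hw : ∀ i, 1 ≤ i → i ≤ M → w i < L) :
    ((UU M L).filter (fun c => cyl M w c ≠ none)).card = ∑ i ∈ Icc 1 M, (w i + 1) := by
  have : (UU M L).filter (fun c => cyl M w c ≠ none) =
      (Icc 1 M).biUnion (fun i => (range (w i + 1)).image (fun t => (i, t))) := by
    ext ⟨i, t⟩
    simp only [mem_filter, mem_UU, mem_biUnion, mem_Icc, mem_image, mem_range, Prod.mk.injEq]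
    simp only [cyl]
    constructor
    · rintro ⟨_, h⟩
      split_ifs at h with h1 h2 h3
      · exact ⟨i, h1, t, by omega, rfl, rfl⟩
      · exact ⟨i, h1, t, by omega, rfl, rfl⟩
      · exact absurd rfl h
      · exact absurd rfl h
    · rintro ⟨i, h1, t, h2, rfl, rfl⟩
      have := hw i h1.1 h1.2
      refine ⟨⟨by omega, by omega⟩, ?_⟩
      rw [if_pos h1]
      split_ifs with h3 h4
      · simp
      · simp
      · omega
  rw [this, card_biUnion]
  · refine sum_congr rfl fun i _ => ?_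
    rw [card_image_of_injective _ (fun a b h => by simpa using h), card_range]
  · intro i _ j _ hij
    rw [Function.onFun, disjoint_left]
    intro c h1 h2
    simp only [mem_image] at h1 h2
    obtain ⟨_, _, rfl⟩ := h1
    obtain ⟨_, _, h3⟩ := h2
    simp only [Prod.mk.injEq] at h3
    exact hij h3.1.symm

theorem weight_le (M : ℕ) (W : Finset (ℕ → ℕ))
    (hinj : ∀ w ∈ W, ∀ w' ∈ W, (∀ i, 1 ≤ i → i ≤ M → w i = w' i) → w = w')
    (hint : ∀ w ∈ W, ∀ w' ∈ W, ∃ i < M, ∃ j, Ch w i j ∧ Ch w' i j) :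
    ∑ w ∈ W, (1 / 2 : ℝ) ^ (∑ i ∈ Icc 1 M, (w i + 1)) ≤ 1 / 4 := by
  classical
  obtain ⟨L, hL, hw⟩ : ∃ L, M + 2 ≤ L ∧ ∀ w ∈ W, ∀ i, 1 ≤ i → i ≤ M → w i < L := by
    refine ⟨M + 2 + ∑ w ∈ W, ∑ i ∈ Icc 1 M, w i, by omega, fun w hw i h1 h2 => ?_⟩
    have e1 : w i ≤ ∑ i ∈ Icc 1 M, w i :=
      single_le_sum (f := fun i => w i) (fun _ _ => Nat.zero_le _) (by simp [h1, h2])
    have e2 : ∑ i ∈ Icc 1 M, w i ≤ ∑ w ∈ W, ∑ i ∈ Icc 1 M, w i :=
      single_le_sum (f := fun w : ℕ → ℕ => ∑ i ∈ Icc 1 M, w i) (fun _ _ => Nat.zero_le _) hw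
    omega
  let C : (ℕ → ℕ) → Finset (Finset Coin) := fun w => (UU M L).powerset.filter (Ext (cyl M w))
  have hC : ∀ w ∈ W, (C w).card * 2 ^ (∑ i ∈ Icc 1 M, (w i + 1)) = 2 ^ (UU M L).card := by
    intro w hW
    have := val_powerset (U := UU M L) (cyl M w) (by
      rintro ⟨i, t⟩ h
      simp only [cyl] at h
      split_ifs at h with h1 h2 h3
      · have := hw w hW i h1.1 h1.2
        exact mem_UU.mpr ⟨by omega, by omega⟩
      · have := hw w hW i h1.1 h1.2
        exact mem_UU.mpr ⟨by omega, by omega⟩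
      · exact absurd rfl h
      · exact absurd rfl h)
    unfold val at this
    rw [dom_cyl (hw w hW)] at this
    convert this
  have h4 := four_mul_card_le hL (Bf := W.biUnion C)
    (fun ω hω => by
      obtain ⟨w, _, h⟩ := mem_biUnion.mp hω
      exact (mem_filter.mp h).1)
    (fun ω hω ω' hω' => by
      obtain ⟨w, hw1, h⟩ := mem_biUnion.mp hω
      obtain ⟨w', hw2, h'⟩ := mem_biUnion.mp hω'
      obtain ⟨i, hi, j, c1, c2⟩ := hint w hw1 w' hw2
      refine ⟨i, hi, j, ?_, ?_⟩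
      · rwa [ch_congr (o' := w) (fun i' t1 t2 => oval_of_cyl (mem_filter.mp h).2 t1 (by omega))]
      · rwa [ch_congr (o' := w') (fun i' t1 t2 => oval_of_cyl (mem_filter.mp h').2 t1 (by omega))])
  rw [card_biUnion] at h4
  swap
  · intro w hw1 w' hw2 hne
    rw [Function.onFun, disjoint_left]
    intro ω h h'
    refine hne (hinj w hw1 w' hw2 fun i t1 t2 => ?_)
    rw [← oval_of_cyl (mem_filter.mp h).2 t1 t2, ← oval_of_cyl (mem_filter.mp h').2 t1 t2]
  have hpos : (0 : ℝ) < 2 ^ (UU M L).card := by positivity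
  have h5 : ∀ w ∈ W, (1 / 2 : ℝ) ^ (∑ i ∈ Icc 1 M, (w i + 1)) =
      ((C w).card : ℝ) / 2 ^ (UU M L).card := by
    intro w hW
    have := congrArg (fun z : ℕ => (z : ℝ)) (hC w hW)
    push_cast at this
    rw [← this, one_div, inv_pow]
    have hne : ((C w).card : ℝ) ≠ 0 := by
      intro h0
      rw [h0, zero_mul] at this
      exact hpos.ne this
    field_simp
  rw [sum_congr rfl h5, ← sum_div, div_le_iff₀ hpos]
  have h6 : (4 : ℝ) * ∑ w ∈ W, ((C w).card : ℝ) ≤ 2 ^ (UU M L).card := by exact_mod_cast h4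
  linarith

end Pool.Agent.Lib.MP_04fdae_co
end

-- part Pool.Agent.Lib.MP_04fdae_co.Count
section

/-! Transfer of the bound from the independent model to triangulations. -/

namespace Pool.Agent.Lib.MP_04fdae_co

open Finset

theorem choose_two_pow_le (q x : ℕ) :
    (q + x).choose x * 2 ^ q ≤ q.centralBinom * 2 ^ x := by
  have hrec : ∀ y, (q + (y + 1)).choose (y + 1) * (y + 1) = (q + y + 1) * (q + y).choose y := by
    intro y
    rw [← add_assoc, Nat.add_one_mul_choose_eq]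
  have hc : q.centralBinom = (q + q).choose q := by
    rw [Nat.centralBinom_eq_two_mul_choose, two_mul]
  rcases le_total q x with h | h
  · obtain ⟨d, rfl⟩ := Nat.exists_eq_add_of_le h
    induction d with
    | zero => simp [hc]
    | succ d ih =>
      have h1 := ih (by omega)
      have h2 := hrec (q + d)
      have h3 : (q + (q + d + 1)).choose (q + d + 1) ≤ 2 * (q + (q + d)).choose (q + d) := by
        refine Nat.le_of_mul_le_mul_right ?_ (show 0 < q + d + 1 by omega)
        rw [h2]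
        nlinarith [Nat.zero_le ((q + (q + d)).choose (q + d))]
      calc (q + (q + (d + 1))).choose (q + (d + 1)) * 2 ^ q
          ≤ 2 * (q + (q + d)).choose (q + d) * 2 ^ q := Nat.mul_le_mul_right _ h3
        _ = 2 * ((q + (q + d)).choose (q + d) * 2 ^ q) := by ring
        _ ≤ 2 * (q.centralBinom * 2 ^ (q + d)) := Nat.mul_le_mul_left _ h1
        _ = q.centralBinom * 2 ^ (q + (d + 1)) := by ring
  · have key : ∀ d, x + d ≤ q → (q + x).choose x * 2 ^ d ≤ (q + (x + d)).choose (x + d) := by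
      intro d
      induction d with
      | zero => simp
      | succ d ih =>
        intro hd
        have h1 := ih (by omega)
        have h2 := hrec (x + d)
        have h3 : 2 * (q + (x + d)).choose (x + d) ≤ (q + (x + d + 1)).choose (x + d + 1) := by
          refine Nat.le_of_mul_le_mul_right ?_ (show 0 < x + d + 1 by omega)
          rw [h2]
          have : 2 * (x + d + 1) ≤ q + (x + d) + 1 := by omega
          nlinarith [Nat.zero_le ((q + (x + d)).choose (x + d))]
        calc (q + x).choose x * 2 ^ (d + 1) = 2 * ((q + x).choose x * 2 ^ d) := by ring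
          _ ≤ 2 * (q + (x + d)).choose (x + d) := Nat.mul_le_mul_left _ h1
          _ ≤ _ := h3
    obtain ⟨d, rfl⟩ := Nat.exists_eq_add_of_le h
    have := key d le_rfl
    rw [hc]
    calc (x + d + x).choose x * 2 ^ (x + d) = (x + d + x).choose x * 2 ^ d * 2 ^ x := by ring
      _ ≤ _ := Nat.mul_le_mul_right _ this

theorem main_binom {n m : ℕ} (hn : 3 ≤ n) (hm : 2 ≤ m) (hmn : m < n) (w : Fin n)
    (F : Finset (Finset (Fin n × Fin n))) (hF : ∀ T ∈ F, IsTriangulation T)
    (hint : ∀ T₁ ∈ F, ∀ T₂ ∈ F, ∃ p ∈ T₁ ∩ T₂, InArc w m p.1 ∧ InArc w m p.2) :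
    (n - m + 1) * F.card * 4 ≤ 4 ^ (m - 1) * (n - m - 1).centralBinom := by
  classical
  set M := m - 1 with hM
  set N := n - 1 with hN
  set q := n - m - 1 with hq
  let oz : Finset (Fin n × Fin n) × ℕ → ℕ → ℕ := fun z => od (ER z.1 ((w.val + n - z.2) % n))
  have hr : ∀ a, (w.val + n - a) % n < n := fun a => Nat.mod_lt _ (by omega)
  let Z := F ×ˢ range (n - m + 1)
  have hZ : ∀ z ∈ Z, IsTriangulation z.1 ∧ z.2 + m ≤ n := by
    intro z hz
    rw [mem_product, mem_range] at hz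
    exact ⟨hF _ hz.1, by omega⟩
  have hlin : ∀ z ∈ Z, LinTri n (ER z.1 ((w.val + n - z.2) % n)) := fun z hz =>
    linTri_ER hn (hr _) (hZ z hz).1
  let π : Finset (Fin n × Fin n) × ℕ → ℕ → ℕ := fun z i =>
    if 1 ≤ i ∧ i ≤ M then oz z (z.2 + i) else 0
  have hπ : ∀ z ∈ Z, ∀ k < M, cyc N z.2 (oz z) k = π z (k + 1) := by
    intro z hz k hk
    have := (hZ z hz).2
    simp only [cyc, π]
    rw [if_pos (by omega), if_pos (by omega), show k + z.2 + 1 = z.2 + (k + 1) by omega]
  have hinjZ : ∀ z ∈ Z, ∀ z' ∈ Z, (∀ k < N, cyc N z.2 (oz z) k = cyc N z'.2 (oz z') k) →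
      z = z' := by
    intro z hz z' hz' h
    have t1 := (hlin z hz).total
    have t2 := (hlin z' hz').total
    have a1 := (hZ z hz).2
    have a2 := (hZ z' hz').2
    have ha : z.2 = z'.2 := by
      rcases lt_trichotomy z.2 z'.2 with h1 | h1 | h1
      · exact (cyc_shift_false h1 (by omega) (fun v hv => (hlin z hz).ballot hv)
          (fun v hv => (hlin z' hz').ballot hv) (by rw [← hN] at t1; omega) h).elim
      · exact h1
      · exact (cyc_shift_false h1 (by omega) (fun v hv => (hlin z' hz').ballot hv)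
          (fun v hv => (hlin z hz).ballot hv) (by rw [← hN] at t2; omega)
          (fun k hk => (h k hk).symm)).elim
    rw [← ha] at h
    have ho := eq_of_cyc (N := N) (by omega) h
    have l1 := hlin z hz
    have l2 := hlin z' hz'
    refine Prod.ext (subset_antisymm ?_ ?_) ha
    · refine subset_of_ER (hr z.2) (hZ z hz).1 (hZ z' hz').1 fun i j hE => ?_
      have := l1.eq_of_od l2 ho i j hE
      rwa [← ha] at this
    · refine subset_of_ER (hr z.2) (hZ z' hz').1 (hZ z hz).1 fun i j hE => ?_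
      refine l2.eq_of_od l1 (fun i h1 h2 => (ho i h1 h2).symm) i j ?_
      rwa [← ha]
  have hfib : ∀ v ∈ Z.image π, ((Z.filter (fun z => π z = v)).card : ℝ) ≤
      q.centralBinom * 4 ^ M * (1 / 2 : ℝ) ^ (∑ i ∈ Icc 1 M, (v i + 1)) := by
    intro v hv
    set s := ∑ i ∈ Icc 1 M, v i with hs
    let tl : Finset (Fin n × Fin n) × ℕ → ℕ →₀ ℕ := fun z =>
      Finsupp.onFinset (Ico M N) (fun k => if k ∈ Ico M N then cyc N z.2 (oz z) k else 0)
        (fun k hk => by by_contra hh; exact hk (if_neg hh))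
    have hsum : ∀ z ∈ Z, π z = v → s + ∑ k ∈ Ico M N, cyc N z.2 (oz z) k + 2 = n := by
      intro z hz hv
      have t1 := (hlin z hz).total
      have a1 := (hZ z hz).2
      rw [← hN, ← sum_cyc (a := z.2) (by omega), range_eq_Ico,
        ← sum_Ico_consecutive _ (Nat.zero_le M) (by omega : M ≤ N)] at t1
      have : ∑ k ∈ Ico 0 M, cyc N z.2 (oz z) k = s := by
        rw [hs, ← hv, ← range_eq_Ico, sum_congr rfl (fun k hk => hπ z hz k (mem_range.mp hk)),
          range_eq_Ico, sum_Ico_add' (π z) 0 M 1]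
        rfl
      change ∑ k ∈ Ico 0 M, cyc N z.2 (oz z) k + ∑ k ∈ Ico M N, cyc N z.2 (oz z) k + 2 = n at t1
      omega
    obtain ⟨z0, hz0, hv0⟩ := mem_image.mp hv
    have hs2 : s + 2 ≤ n := by have := hsum z0 hz0 hv0; omega
    have hcard : (Z.filter (fun z => π z = v)).card ≤
        ((Ico M N).finsuppAntidiag (n - 2 - s)).card := by
      refine card_le_card_of_injOn tl ?_ ?_
      · intro z hz
        rw [mem_coe, mem_filter] at hz
        rw [mem_coe, mem_finsuppAntidiag]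
        refine ⟨?_, Finsupp.support_onFinset_subset⟩
        have := hsum z hz.1 hz.2
        have e : ∑ k ∈ Ico M N, tl z k = ∑ k ∈ Ico M N, cyc N z.2 (oz z) k :=
          sum_congr rfl fun k hk => by simp only [tl, Finsupp.onFinset_apply, if_pos hk]
        rw [e]; omega
      · intro z hz z' hz' h
        rw [mem_coe, mem_filter] at hz hz'
        refine hinjZ z hz.1 z' hz'.1 fun k hk => ?_
        by_cases hkM : k < M
        · rw [hπ z hz.1 k hkM, hπ z' hz'.1 k hkM, hz.2, hz'.2]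
        · have hk2 : k ∈ Ico M N := mem_Ico.mpr ⟨by omega, hk⟩
          have := DFunLike.congr_fun h k
          simpa only [tl, Finsupp.onFinset_apply, if_pos hk2] using this
    rw [card_finsuppAntidiag_nat_eq_choose, Nat.card_Ico,
      show N - M + (n - 2 - s) - 1 = q + (n - 2 - s) by omega] at hcard
    have h1 := choose_two_pow_le q (n - 2 - s)
    have h2 : (Z.filter (fun z => π z = v)).card * 2 ^ q ≤ q.centralBinom * 2 ^ (n - 2 - s) :=
      (Nat.mul_le_mul_right _ hcard).trans h1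
    have h3 : ((Z.filter (fun z => π z = v)).card : ℝ) * 2 ^ q ≤
        q.centralBinom * 2 ^ (n - 2 - s) := by exact_mod_cast h2
    rw [sum_add_distrib, ← hs, sum_const, Nat.card_Icc, smul_eq_mul, mul_one,
      show M + 1 - 1 = M by omega, one_div, inv_pow, ← div_eq_mul_inv, le_div_iff₀ (by positivity)]
    have h4 : (2 : ℝ) ^ (n - 2 - s) * 2 ^ (s + M) = 4 ^ M * 2 ^ q := by
      rw [← pow_add, show (4 : ℝ) = 2 ^ 2 by norm_num, ← pow_mul, ← pow_add]
      congr 1; omega
    have h5 : (0 : ℝ) < 2 ^ q := by positivity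
    refine le_of_mul_le_mul_right ?_ h5
    calc ((Z.filter (fun z => π z = v)).card : ℝ) * 2 ^ (s + M) * 2 ^ q
        = ((Z.filter (fun z => π z = v)).card : ℝ) * 2 ^ q * 2 ^ (s + M) := by ring
      _ ≤ q.centralBinom * 2 ^ (n - 2 - s) * 2 ^ (s + M) := by gcongr
      _ = q.centralBinom * 4 ^ M * 2 ^ q := by rw [mul_assoc, h4]; ring
  have hw := weight_le M (Z.image π)
    (by
      intro v hv v' hv' h
      obtain ⟨z, _, rfl⟩ := mem_image.mp hv
      obtain ⟨z', _, rfl⟩ := mem_image.mp hv'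
      funext i
      by_cases hi : 1 ≤ i ∧ i ≤ M
      · exact h i hi.1 hi.2
      · simp only [π, if_neg hi])
    (by
      intro v hv v' hv'
      obtain ⟨z, hz, rfl⟩ := mem_image.mp hv
      obtain ⟨z', hz', rfl⟩ := mem_image.mp hv'
      obtain ⟨p, hp, i1, i2⟩ := hint z.1 (mem_product.mp hz).1 z'.1 (mem_product.mp hz').1
      rw [mem_inter] at hp
      obtain ⟨t, ht, j, hj⟩ := window_chord hn w ((hZ z hz).1.1 p hp.1) i1 i2
      refine ⟨t, ht, j, ?_, ?_⟩
      · rw [ch_congr (o' := fun i => oz z (z.2 + i)) (fun i h1 h2 => if_pos ⟨h1, by omega⟩)]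
        exact hj z.1 z.2 (hZ z hz).1 hp.1 (hZ z hz).2
      · rw [ch_congr (o' := fun i => oz z' (z'.2 + i)) (fun i h1 h2 => if_pos ⟨h1, by omega⟩)]
        exact hj z'.1 z'.2 (hZ z' hz').1 hp.2 (hZ z' hz').2)
  have hZc : Z.card = F.card * (n - m + 1) := by simp [Z]
  have h1 : (Z.card : ℝ) ≤ q.centralBinom * 4 ^ M * (1 / 4) := by
    rw [card_eq_sum_card_image π Z]
    push_cast
    refine (sum_le_sum hfib).trans ?_
    rw [← mul_sum]
    gcongr
  rw [hZc] at h1
  have h2 : (((n - m + 1) * F.card * 4 : ℕ) : ℝ) ≤ ((4 ^ M * q.centralBinom : ℕ) : ℝ) := by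
    push_cast at h1 ⊢
    linarith
  exact_mod_cast h2

theorem centralBinom_sq_mono (q d : ℕ) :
    (4 * q + 1) * (4 ^ d * q.centralBinom) ^ 2 ≤ (4 * (q + d) + 1) * (q + d).centralBinom ^ 2 := by
  induction d with
  | zero => simp
  | succ d ih =>
    have h := Nat.succ_mul_centralBinom_succ (q + d)
    set y := q + d with hy
    have h2 : 16 * ((4 * y + 1) * y.centralBinom ^ 2) ≤
        (4 * (y + 1) + 1) * (y + 1).centralBinom ^ 2 := by
      refine Nat.le_of_mul_le_mul_left ?_ (show 0 < (y + 1) ^ 2 by positivity)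
      have e : (y + 1) ^ 2 * ((4 * (y + 1) + 1) * (y + 1).centralBinom ^ 2) =
          (4 * (y + 1) + 1) * ((y + 1) * (y + 1).centralBinom) ^ 2 := by ring
      rw [e, h]
      nlinarith [Nat.zero_le (y.centralBinom ^ 2)]
    calc (4 * q + 1) * (4 ^ (d + 1) * q.centralBinom) ^ 2
        = 16 * ((4 * q + 1) * (4 ^ d * q.centralBinom) ^ 2) := by ring
      _ ≤ 16 * ((4 * y + 1) * y.centralBinom ^ 2) := Nat.mul_le_mul_left _ ih
      _ ≤ _ := h2

theorem main_sq {n m : ℕ} (hn : 3 ≤ n) (hm : 2 ≤ m) (hmn : m < n) (w : Fin n)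
    (F : Finset (Finset (Fin n × Fin n))) (hF : ∀ T ∈ F, IsTriangulation T)
    (hint : ∀ T₁ ∈ F, ∀ T₂ ∈ F, ∃ p ∈ T₁ ∩ T₂, InArc w m p.1 ∧ InArc w m p.2) :
    F.card ^ 2 * (n - m) ^ 3 ≤ (n - 2) ^ 3 * catalan (n - 3) ^ 2 := by
  have h1 := main_binom hn hm hmn w F hF hint
  obtain ⟨d, rfl⟩ : ∃ d, m = d + 2 := ⟨m - 2, by omega⟩
  obtain ⟨q, rfl⟩ : ∃ q, n = q + d + 3 := ⟨n - d - 3, by omega⟩
  rw [show q + d + 3 - (d + 2) = q + 1 by omega] at h1 ⊢
  rw [show d + 2 - 1 = d + 1 by omega, Nat.add_sub_cancel] at h1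
  rw [show q + d + 3 - 2 = q + d + 1 by omega, Nat.add_sub_cancel]
  have h2 : (q + 2) * F.card ≤ 4 ^ d * q.centralBinom := by
    rw [pow_succ] at h1
    nlinarith
  have h3 := centralBinom_sq_mono q d
  rw [← succ_mul_catalan_eq_centralBinom (q + d)] at h3
  have h4 : (4 * q + 1) * ((q + 2) * F.card) ^ 2 ≤
      (4 * (q + d) + 1) * ((q + d + 1) * catalan (q + d)) ^ 2 :=
    (Nat.mul_le_mul_left _ (Nat.pow_le_pow_left h2 2)).trans h3
  refine Nat.le_of_mul_le_mul_left ?_ (show 0 < 4 by omega)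
  calc 4 * (F.card ^ 2 * (q + 1) ^ 3) = 4 * (q + 1) ^ 3 * F.card ^ 2 := by ring
    _ ≤ (4 * q + 1) * (q + 2) ^ 2 * F.card ^ 2 := Nat.mul_le_mul_right _ (by nlinarith)
    _ = (4 * q + 1) * ((q + 2) * F.card) ^ 2 := by ring
    _ ≤ (4 * (q + d) + 1) * ((q + d + 1) * catalan (q + d)) ^ 2 := h4
    _ ≤ (4 * (q + d + 1)) * ((q + d + 1) * catalan (q + d)) ^ 2 :=
      Nat.mul_le_mul_right _ (by omega)
    _ = 4 * ((q + d + 1) ^ 3 * catalan (q + d) ^ 2) := by ring

end Pool.Agent.Lib.MP_04fdae_co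
end
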